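import Mathlib

/-!
# Ranks of idempotent matrices over finite dimensional algebras
-/

namespace Pool.Agent.KS6_48.LC

open Matrix

section field

variable {K : Type} [Field K]

/-- rank factorisation of an idempotent matrix over a field -/
theorem rank_factor {ι : Type} [Fintype ι] [DecidableEq ι]
    (M : Matrix ι ι K) (hM : M * M = M) : ∃ (x : Matrix ι (Fin M.rank) K)
      (y : Matrix (Fin M.rank) ι K), x * y = M ∧ y * x = 1 := by
  let f := M.toLin'
  have hf : ∀ u, f (f u) = f u := by
    intro u
    have : (M * M).toLin' u = M.toLin' u := by rw [hM]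
    rw [Matrix.toLin'_mul] at this
    exact this
  have hr : Module.finrank K (LinearMap.range f) = M.rank := rfl
  let b := Module.finBasisOfFinrankEq K (LinearMap.range f) hr
  let P := Pi.basisFun K ι
  refine ⟨LinearMap.toMatrix b P (LinearMap.range f).subtype,
    LinearMap.toMatrix P b f.rangeRestrict, ?_, ?_⟩
  · rw [← LinearMap.toMatrix_comp P b P]
    have : (LinearMap.range f).subtype ∘ₗ f.rangeRestrict = f := by ext; rfl
    rw [this, LinearMap.toMatrix_eq_toMatrix']
    exact LinearMap.toMatrix'_toLin' M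
  · rw [← LinearMap.toMatrix_comp b P b]
    have : f.rangeRestrict ∘ₗ (LinearMap.range f).subtype = LinearMap.id := by
      apply LinearMap.ext
      rintro ⟨_, u, rfl⟩
      apply Subtype.ext
      exact hf u
    rw [this, LinearMap.toMatrix_id]

theorem rank_swap_le {ι κ : Type} [Fintype ι] [Fintype κ] (x : Matrix ι κ K) (y : Matrix κ ι K)
    (h : (x * y) * (x * y) = x * y) : (x * y).rank ≤ (y * x).rank := by
  have h1 : x * y = x * ((y * x) * y) := by
    conv_lhs => rw [← h]
    simp only [Matrix.mul_assoc]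
  rw [h1]
  exact (rank_mul_le_right _ _).trans (rank_mul_le_left _ _)

theorem rank_swap {ι κ : Type} [Fintype ι] [Fintype κ] (x : Matrix ι κ K) (y : Matrix κ ι K)
    (h : (x * y) * (x * y) = x * y) (h' : (y * x) * (y * x) = y * x) :
    (x * y).rank = (y * x).rank :=
  le_antisymm (rank_swap_le x y h) (rank_swap_le y x h')

/-- The rank of a block diagonal idempotent matrix. -/
theorem rank_block {κ μ : Type} [Fintype κ] [DecidableEq κ] [Fintype μ] [DecidableEq μ]
    (N : κ → Matrix μ μ K) (hN : ∀ j, N j * N j = N j) :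
    (Matrix.of fun p q : κ × μ => if p.1 = q.1 then N p.1 p.2 q.2 else 0).rank =
      ∑ j, (N j).rank := by
  have h0 := fun j => rank_factor (N j) (hN j)
  choose x y hxy hyx using h0
  let X : Matrix (κ × μ) (Σ j, Fin (N j).rank) K :=
    Matrix.of fun p s => if p.1 = s.1 then x s.1 p.2 s.2 else 0
  let Y : Matrix (Σ j, Fin (N j).rank) (κ × μ) K :=
    Matrix.of fun s p => if p.1 = s.1 then y s.1 s.2 p.2 else 0
  have h1 : X * Y = Matrix.of fun p q : κ × μ => if p.1 = q.1 then N p.1 p.2 q.2 else 0 := by
    ext p q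
    rw [Matrix.mul_apply, Fintype.sum_sigma, Finset.sum_eq_single p.1]
    · simp only [X, Y, Matrix.of_apply, if_true]
      by_cases h : p.1 = q.1
      · rw [if_pos h]
        simp only [if_pos h.symm]
        rw [← Matrix.mul_apply, hxy]
      · rw [if_neg h]
        simp only [if_neg (Ne.symm h), mul_zero, Finset.sum_const_zero]
    · intro b _ hb
      refine Finset.sum_eq_zero fun a _ => ?_
      simp only [X, Matrix.of_apply]
      rw [if_neg (Ne.symm hb), zero_mul]
    · intro h; exact absurd (Finset.mem_univ _) h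
  have h2 : Y * X = 1 := by
    ext s t
    rw [Matrix.mul_apply, Fintype.sum_prod_type, Finset.sum_eq_single s.1]
    · simp only [X, Y, Matrix.of_apply, if_true]
      obtain ⟨j, a⟩ := s
      obtain ⟨k, b⟩ := t
      by_cases h : j = k
      · subst h
        simp only [if_true]
        rw [← Matrix.mul_apply, hyx]
        by_cases hab : a = b
        · subst hab
          rw [Matrix.one_apply_eq, Matrix.one_apply_eq]
        · rw [Matrix.one_apply_ne hab, Matrix.one_apply_ne]
          intro h
          exact hab (eq_of_heq (Sigma.mk.inj h).2)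
      · simp only [if_neg h, mul_zero, Finset.sum_const_zero]
        rw [Matrix.one_apply_ne]
        intro h'
        exact h (Sigma.mk.inj h').1
    · intro b _ hb
      refine Finset.sum_eq_zero fun a _ => ?_
      simp only [Y, Matrix.of_apply]
      rw [if_neg hb, zero_mul]
    · intro h; exact absurd (Finset.mem_univ _) h
  have h3 : (X * Y) * (X * Y) = X * Y := by
    calc (X * Y) * (X * Y) = X * (Y * X) * Y := by simp only [Matrix.mul_assoc]
      _ = X * Y := by rw [h2, Matrix.mul_one]
  rw [← h1, rank_swap X Y h3 (by rw [h2, Matrix.one_mul]), h2, rank_one, Fintype.card_sigma]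
  simp

end field

/-- Equivalence of idempotent matrices. -/
def Eqv {T : Type} [Ring T] {ι κ : Type} [Fintype ι] [Fintype κ] (M : Matrix ι ι T)
    (N : Matrix κ κ T) : Prop :=
  ∃ (x : Matrix ι κ T) (y : Matrix κ ι T), x * y = M ∧ y * x = N

section flat

variable {K T : Type} [Field K] [Ring T] {μ : Type} [Fintype μ]

/-- The matrix over the field obtained by applying a matrix valued homomorphism to the
entries. -/
def fl (Ψ : T →ₙ+* Matrix μ μ K) {ι κ : Type} (X : Matrix ι κ T) : Matrix (ι × μ) (κ × μ) K :=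
  Matrix.of fun p q => Ψ (X p.1 q.1) p.2 q.2

theorem fl_mul (Ψ : T →ₙ+* Matrix μ μ K) {ι κ ν : Type} [Fintype κ]
    (X : Matrix ι κ T) (Y : Matrix κ ν T) : fl Ψ (X * Y) = fl Ψ X * fl Ψ Y := by
  ext p q
  simp only [fl, Matrix.of_apply, Matrix.mul_apply, Fintype.sum_prod_type, map_sum, map_mul,
    Matrix.sum_apply]

theorem rank_fl_diag [DecidableEq μ] (Ψ : T →ₙ+* Matrix μ μ K) {κ : Type} [Fintype κ]
    [DecidableEq κ] (N : κ → T) (hN : ∀ j, N j * N j = N j) :
    (fl Ψ (Matrix.diagonal N)).rank = ∑ j, (Ψ (N j)).rank := by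
  have h := rank_block (fun j => Ψ (N j)) (fun j => by rw [← map_mul, hN])
  rw [← h]
  congr 1
  ext p q
  simp only [fl, Matrix.of_apply]
  by_cases h : p.1 = q.1
  · rw [if_pos h, h, Matrix.diagonal_apply_eq]
  · rw [if_neg h, Matrix.diagonal_apply_ne _ h, map_zero]
    rfl

theorem rank_fl_eqv (Ψ : T →ₙ+* Matrix μ μ K) {ι κ : Type} [Fintype ι] [Fintype κ]
    {M : Matrix ι ι T} {N : Matrix κ κ T} (hM : M * M = M) (hN : N * N = N) (h : Eqv M N) :
    (fl Ψ M).rank = (fl Ψ N).rank := by
  obtain ⟨x, y, rfl, rfl⟩ := h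
  rw [fl_mul, fl_mul]
  refine rank_swap _ _ ?_ ?_
  · rw [← fl_mul, ← fl_mul, hM]
  · rw [← fl_mul, ← fl_mul, hN]

theorem diag_idem {κ : Type} [Fintype κ] [DecidableEq κ] {N : κ → T}
    (hN : ∀ j, N j * N j = N j) :
    Matrix.diagonal N * Matrix.diagonal N = Matrix.diagonal N := by
  rw [Matrix.diagonal_mul_diagonal]
  congr 1
  funext i
  exact hN i

end flat

/-- The simple quotients of an algebra with the dual idempotents, such that every idempotent
matrix is equivalent to a diagonal matrix of these idempotents. -/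
structure KData (K T : Type) [Field K] [Ring T] (n : ℕ) where
  d : Fin n → ℕ
  π : ∀ a, T →ₙ+* Matrix (Fin (d a)) (Fin (d a)) K
  p : Fin n → T
  p_idem : ∀ a, p a * p a = p a
  dual : ∀ a b, (π b (p a)).rank = if a = b then 1 else 0
  std : ∀ (ι : Type) [Fintype ι] [DecidableEq ι] (M : Matrix ι ι T), M * M = M →
    ∃ (κ : Type) (_ : Fintype κ) (_ : DecidableEq κ) (β : κ → Fin n),
      Eqv M (Matrix.diagonal fun j => p (β j))

namespace KData

variable {K T : Type} [Field K] [Ring T] {n : ℕ} (D : KData K T n)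

theorem span {μ : Type} [Fintype μ] [DecidableEq μ] (Ψ : T →ₙ+* Matrix μ μ K)
    {ι : Type} [Fintype ι] [DecidableEq ι] (M : Matrix ι ι T) (hM : M * M = M) :
    (fl Ψ M).rank = ∑ a, (fl (D.π a) M).rank * (Ψ (D.p a)).rank := by
  obtain ⟨κ, _, _, β, h⟩ := D.std ι M hM
  have hd := diag_idem (N := fun j => D.p (β j)) (fun j => D.p_idem _)
  rw [rank_fl_eqv Ψ hM hd h, rank_fl_diag Ψ _ (fun j => D.p_idem _)]
  have h1 : ∀ a, (fl (D.π a) M).rank = ∑ j, (if β j = a then 1 else 0) := by
    intro a
    rw [rank_fl_eqv (D.π a) hM hd h, rank_fl_diag (D.π a) _ (fun j => D.p_idem _)]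
    exact Finset.sum_congr rfl fun j _ => D.dual _ _
  simp only [h1]
  simp only [Finset.sum_mul]
  rw [Finset.sum_comm]
  refine Finset.sum_congr rfl fun j _ => ?_
  rw [Finset.sum_eq_single (β j)]
  · rw [if_pos rfl, one_mul]
  · intro b _ hb
    rw [if_neg (Ne.symm hb), zero_mul]
  · intro h; exact absurd (Finset.mem_univ _) h

theorem span_one {μ : Type} [Fintype μ] [DecidableEq μ] (Ψ : T →ₙ+* Matrix μ μ K)
    (t : T) (ht : t * t = t) :
    (Ψ t).rank = ∑ a, (D.π a t).rank * (Ψ (D.p a)).rank := by
  have hM : (Matrix.diagonal fun _ : Unit => t) * (Matrix.diagonal fun _ : Unit => t) =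
      Matrix.diagonal fun _ : Unit => t := diag_idem (fun _ => ht)
  have h := D.span Ψ _ hM
  rw [rank_fl_diag Ψ _ (fun _ => ht)] at h
  simp only [rank_fl_diag (D.π _) _ (fun _ => ht), Finset.univ_unique, Finset.sum_const,
    Finset.card_singleton, one_smul] at h
  exact h

end KData

section lift

variable {T Q : Type} [Ring T] [Ring Q]

/-- Equivalences of idempotent matrices lift modulo a nil kernel. -/
theorem lift_eqv (π : T →+* Q) (hs : Function.Surjective π)
    (hnil : ∀ (ι : Type) [Fintype ι] [DecidableEq ι] (M : Matrix ι ι T),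
      (∀ i j, π (M i j) = 0) → IsNilpotent M)
    {ι κ : Type} [Fintype ι] [DecidableEq ι] [Fintype κ] [DecidableEq κ]
    {M : Matrix ι ι T} {P : Matrix κ κ T} (hM : M * M = M) (hP : P * P = P)
    (h : Eqv (M.map π) (P.map π)) : Eqv M P := by
  obtain ⟨x, y, hxy, hyx⟩ := h
  have hx0 : ∃ X₀ : Matrix ι κ T, X₀.map π = x := by
    choose X₀ hX₀ using fun i j => hs (x i j)
    exact ⟨X₀, by ext i j; exact hX₀ i j⟩
  have hy0 : ∃ Y₀ : Matrix κ ι T, Y₀.map π = y := by
    choose Y₀ hY₀ using fun i j => hs (y i j)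
    exact ⟨Y₀, by ext i j; exact hY₀ i j⟩
  obtain ⟨X₀, hX₀⟩ := hx0
  obtain ⟨Y₀, hY₀⟩ := hy0
  let X := M * X₀ * P
  let Y := P * Y₀ * M
  have hE : M.map π * M.map π = M.map π := by rw [← Matrix.map_mul, hM]
  have hF : P.map π * P.map π = P.map π := by rw [← Matrix.map_mul, hP]
  have mX : X.map π = x * y * x * (y * x) := by
    change (M * X₀ * P).map π = _
    rw [Matrix.map_mul, Matrix.map_mul, hX₀, ← hxy, ← hyx]
  have mY : Y.map π = y * x * y * (x * y) := by
    change (P * Y₀ * M).map π = _
    rw [Matrix.map_mul, Matrix.map_mul, hY₀, ← hxy, ← hyx]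
  have hxyi : (x * y) * (x * y) = x * y := by rw [hxy, hE]
  have hyxi : (y * x) * (y * x) = y * x := by rw [hyx, hF]
  have mXY : X.map π * Y.map π = M.map π := by
    rw [mX, mY]
    calc x * y * x * (y * x) * (y * x * y * (x * y)) =
        (x * y) * (x * y) * (x * y) * (x * y) * (x * y) := by simp only [Matrix.mul_assoc]
      _ = x * y := by rw [hxyi, hxyi, hxyi, hxyi]
      _ = M.map π := hxy
  have mYX : Y.map π * X.map π = P.map π := by
    rw [mX, mY]
    calc y * x * y * (x * y) * (x * y * x * (y * x)) =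
        (y * x) * (y * x) * (y * x) * (y * x) * (y * x) := by simp only [Matrix.mul_assoc]
      _ = y * x := by rw [hyxi, hyxi, hyxi, hyxi]
      _ = P.map π := hyx
  have hMX : M * X = X := by
    change M * (M * X₀ * P) = M * X₀ * P
    simp only [← Matrix.mul_assoc]
    rw [hM]
  have hXP : X * P = X := by
    change M * X₀ * P * P = M * X₀ * P
    rw [Matrix.mul_assoc _ P P, hP]
  have hPY : P * Y = Y := by
    change P * (P * Y₀ * M) = P * Y₀ * M
    simp only [← Matrix.mul_assoc]
    rw [hP]
  have hYM : Y * M = Y := by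
    change P * Y₀ * M * M = P * Y₀ * M
    rw [Matrix.mul_assoc _ M M, hM]
  let n := M - X * Y
  have hn : IsNilpotent n := by
    refine hnil ι n fun i j => ?_
    have : (M - X * Y).map π = 0 := by
      rw [Matrix.map_sub _ (fun a b => map_sub π a b), Matrix.map_mul, mXY, sub_self]
    exact congrFun (congrFun this i) j
  obtain ⟨u, hu⟩ := hn.isUnit_one_sub
  have hn1 : M * n = n := by
    change M * (M - X * Y) = M - X * Y
    rw [Matrix.mul_sub, hM, ← Matrix.mul_assoc, hMX]
  have hn2 : n * M = n := by
    change (M - X * Y) * M = M - X * Y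
    rw [Matrix.sub_mul, hM, Matrix.mul_assoc, hYM]
  have hu1 : (1 - n) * (↑u⁻¹ : Matrix ι ι T) = 1 := by rw [← hu]; exact u.mul_inv
  have hu2 : (↑u⁻¹ : Matrix ι ι T) * (1 - n) = 1 := by rw [← hu]; exact u.inv_mul
  have hMn : M * (1 - n) = X * Y := by
    rw [Matrix.mul_sub, Matrix.mul_one, hn1]
    change M - (M - X * Y) = X * Y
    rw [sub_sub_cancel]
  have hXYu : X * (Y * (↑u⁻¹ : Matrix ι ι T)) = M := by
    rw [← Matrix.mul_assoc, ← hMn, Matrix.mul_assoc, hu1, Matrix.mul_one]
  let Y' := Y * (↑u⁻¹ : Matrix ι ι T)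
  have hmu : (↑u⁻¹ : Matrix ι ι T).map π = 1 := by
    have h1 : ((1 - n) * (↑u⁻¹ : Matrix ι ι T)).map π = (1 : Matrix ι ι T).map π := by rw [hu1]
    rw [Matrix.map_mul, Matrix.map_sub _ (fun a b => map_sub π a b)] at h1
    have h2 : n.map π = 0 := by
      change (M - X * Y).map π = 0
      rw [Matrix.map_sub _ (fun a b => map_sub π a b), Matrix.map_mul, mXY, sub_self]
    have h3 : (1 : Matrix ι ι T).map π = 1 := Matrix.map_one _ (map_zero π) (map_one π)
    rw [h2, h3, sub_zero, Matrix.one_mul] at h1
    exact h1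
  refine ⟨X, Y', hXYu, ?_⟩
  have e1 : Y' * X * (Y' * X) = Y' * X := by
    calc Y' * X * (Y' * X) = Y' * (X * Y') * X := by simp only [Matrix.mul_assoc]
      _ = Y' * (M * X) := by rw [hXYu, Matrix.mul_assoc]
      _ = Y' * X := by rw [hMX]
  have e2 : P * (Y' * X) = Y' * X := by
    change P * ((Y * (↑u⁻¹ : Matrix ι ι T)) * X) = (Y * (↑u⁻¹ : Matrix ι ι T)) * X
    rw [← Matrix.mul_assoc P, ← Matrix.mul_assoc P, hPY]
  have e3 : Y' * X * P = Y' * X := by rw [Matrix.mul_assoc, hXP]
  have e4 : (P - Y' * X) * (P - Y' * X) = P - Y' * X := by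
    rw [Matrix.sub_mul, Matrix.mul_sub, Matrix.mul_sub, hP, e1, e2, e3]
    abel
  have e5 : IsNilpotent (P - Y' * X) := by
    refine hnil κ _ fun i j => ?_
    have : (P - Y' * X).map π = 0 := by
      rw [Matrix.map_sub _ (fun a b => map_sub π a b), Matrix.map_mul]
      change P.map π - (Y * (↑u⁻¹ : Matrix ι ι T)).map π * X.map π = 0
      rw [Matrix.map_mul, hmu, Matrix.mul_one, mYX, sub_self]
    exact congrFun (congrFun this i) j
  obtain ⟨k, hk⟩ := e5
  have e6 : (P - Y' * X) ^ (k + 1) = P - Y' * X :=
    IsIdempotentElem.pow_succ_eq k e4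
  have e7 : P - Y' * X = 0 := by
    rw [← e6, pow_succ, hk, zero_mul]
  exact (sub_eq_zero.mp e7).symm

end lift

section construct

variable {K T : Type} [Field K] [Ring T] {n : ℕ} {d : Fin n → ℕ} [hd : ∀ i, NeZero (d i)]

/-- the projection to a factor as a non unital homomorphism -/
def proj (π : T →+* (Π i, Matrix (Fin (d i)) (Fin (d i)) K)) (a : Fin n) :
    T →ₙ+* Matrix (Fin (d a)) (Fin (d a)) K where
  toFun t := π t a
  map_mul' x y := by rw [map_mul]; rfl
  map_zero' := by rw [map_zero]; rfl
  map_add' x y := by rw [map_add]; rfl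

theorem std_quot (π : T →+* (Π i, Matrix (Fin (d i)) (Fin (d i)) K))
    {ι : Type} [Fintype ι] [DecidableEq ι] (M : Matrix ι ι T) (hM : M * M = M) :
    ∃ (κ : Type) (_ : Fintype κ) (_ : DecidableEq κ) (β : κ → Fin n),
      Eqv (M.map π) (Matrix.diagonal fun j =>
        (Pi.single (β j) (Matrix.single 0 0 1) : Π i, Matrix (Fin (d i)) (Fin (d i)) K)) := by
  have hF : ∀ a, fl (proj π a) M * fl (proj π a) M = fl (proj π a) M := fun a => by
    rw [← fl_mul, hM]
  have h0 := fun a => rank_factor _ (hF a)
  choose x y hxy hyx using h0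
  let κ := Σ a, Fin (fl (proj π a) M).rank
  let U : ι → ∀ a, Fin (fl (proj π a) M).rank → Matrix (Fin (d a)) (Fin (d a)) K :=
    fun i a k => Matrix.of fun s t => if t = 0 then x a (i, s) k else 0
  let V : ι → ∀ a, Fin (fl (proj π a) M).rank → Matrix (Fin (d a)) (Fin (d a)) K :=
    fun i a k => Matrix.of fun s t => if s = 0 then y a k (i, t) else 0
  refine ⟨κ, inferInstance, inferInstance, fun j => j.1,
    Matrix.of fun i j => Pi.single j.1 (U i j.1 j.2),
    Matrix.of fun j i => Pi.single j.1 (V i j.1 j.2), ?_, ?_⟩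
  · ext i i' b s t
    rw [Matrix.mul_apply, Fintype.sum_sigma]
    simp only [Matrix.of_apply]
    have e1 : ∀ a (k : Fin (fl (proj π a) M).rank),
        (Pi.single a (U i a k) : Π i, Matrix (Fin (d i)) (Fin (d i)) K) *
          Pi.single a (V i' a k) = Pi.single a (U i a k * V i' a k) := fun a k =>
      (Pi.single_mul _ _ _).symm
    simp only [e1]
    rw [Finset.sum_apply, Finset.sum_eq_single b]
    · rw [Finset.sum_apply]
      simp only [Pi.single_eq_same]
      rw [Matrix.sum_apply]
      have e2 : ∀ k, (U i b k * V i' b k) s t = x b (i, s) k * y b k (i', t) := by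
        intro k
        rw [Matrix.mul_apply, Finset.sum_eq_single 0]
        · simp [U, V]
        · intro l _ hl
          simp [U, hl]
        · intro h; exact absurd (Finset.mem_univ _) h
      simp only [e2]
      rw [← Matrix.mul_apply, hxy]
      rfl
    · intro a _ ha
      rw [Finset.sum_apply]
      refine Finset.sum_eq_zero fun k _ => ?_
      rw [Pi.single_eq_of_ne (Ne.symm ha)]
    · intro h; exact absurd (Finset.mem_univ _) h
  · ext ⟨a, k⟩ ⟨a', k'⟩ b s t
    rw [Matrix.mul_apply]
    simp only [Matrix.of_apply]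
    by_cases haa : a = a'
    · subst haa
      have e1 : ∀ i, (Pi.single a (V i a k) : Π i, Matrix (Fin (d i)) (Fin (d i)) K) *
          Pi.single a (U i a k') = Pi.single a (V i a k * U i a k') := fun i =>
        (Pi.single_mul _ _ _).symm
      simp only [e1]
      rw [Finset.sum_apply]
      have e3 : (∑ i, V i a k * U i a k') = if k = k' then Matrix.single 0 0 1 else 0 := by
        ext s t
        rw [Matrix.sum_apply]
        have e4 : ∀ i, (V i a k * U i a k') s t =
            if s = 0 ∧ t = 0 then ∑ l, y a k (i, l) * x a (i, l) k' else 0 := by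
          intro i
          rw [Matrix.mul_apply]
          by_cases hs : s = 0
          · by_cases ht : t = 0
            · rw [if_pos ⟨hs, ht⟩]
              simp [U, V, hs, ht]
            · rw [if_neg (fun h => ht h.2)]
              simp [U, ht]
          · rw [if_neg (fun h => hs h.1)]
            simp [V, hs]
        simp only [e4]
        have e5 : ∑ i, ∑ l, y a k (i, l) * x a (i, l) k' = if k = k' then 1 else 0 := by
          rw [← Fintype.sum_prod_type (f := fun p => y a k p * x a p k'), ← Matrix.mul_apply, hyx,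
            Matrix.one_apply]
        by_cases h00 : s = 0 ∧ t = 0
        · simp only [if_pos h00]
          rw [e5]
          obtain ⟨rfl, rfl⟩ := h00
          split_ifs
          · rw [Matrix.single_apply_same]
          · rfl
        · simp only [if_neg h00, Finset.sum_const_zero]
          split_ifs
          · rw [Matrix.single_apply, if_neg]
            exact fun h => h00 ⟨h.1.symm, h.2.symm⟩
          · rfl
      by_cases hb : b = a
      · subst hb
        simp only [Pi.single_eq_same]
        rw [e3]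
        by_cases hk : k = k'
        · subst hk
          rw [if_pos rfl, Matrix.diagonal_apply_eq, Pi.single_eq_same]
        · rw [if_neg hk, Matrix.diagonal_apply_ne]
          · rfl
          · intro h
            exact hk (eq_of_heq (Sigma.mk.inj h).2)
      · rw [Finset.sum_eq_zero (fun i _ => by rw [Pi.single_eq_of_ne hb])]
        by_cases hk : k = k'
        · subst hk
          rw [Matrix.diagonal_apply_eq, Pi.single_eq_of_ne hb]
        · rw [Matrix.diagonal_apply_ne]
          · rfl
          · intro h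
            exact hk (eq_of_heq (Sigma.mk.inj h).2)
    · have e1 : ∀ i, (Pi.single a (V i a k) : Π i, Matrix (Fin (d i)) (Fin (d i)) K) *
          Pi.single a' (U i a' k') = 0 := by
        intro i
        funext b
        by_cases hb : b = a
        · subst hb
          rw [Pi.mul_apply, Pi.single_eq_of_ne haa, mul_zero]
          rfl
        · rw [Pi.mul_apply, Pi.single_eq_of_ne hb, zero_mul]
          rfl
      simp only [e1, Finset.sum_const_zero]
      rw [Matrix.diagonal_apply_ne]
      intro h
      exact haa (Sigma.mk.inj h).1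

theorem rank_single_one {m : ℕ} [NeZero m] :
    (Matrix.single 0 0 1 : Matrix (Fin m) (Fin m) K).rank = 1 := by
  classical
  have h : (Matrix.single 0 0 1 : Matrix (Fin m) (Fin m) K) =
      Matrix.diagonal (Pi.single 0 1) := by
    rw [Matrix.diagonal_single]
  rw [h, Matrix.rank_diagonal]
  simp [Pi.single_apply]

/-- The data from a surjection with nil kernel onto a product of matrix algebras. -/
def KData.ofSurj (π : T →+* (Π i, Matrix (Fin (d i)) (Fin (d i)) K))
    (hs : Function.Surjective π)
    (hnil : ∀ (ι : Type) [Fintype ι] [DecidableEq ι] (M : Matrix ι ι T),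
      (∀ i j, π (M i j) = 0) → IsNilpotent M)
    (p : Fin n → T) (hp1 : ∀ a, p a * p a = p a)
    (hp2 : ∀ a, π (p a) = Pi.single a (Matrix.single 0 0 1)) : KData K T n where
  d := d
  π := proj π
  p := p
  p_idem := hp1
  dual a b := by
    change (π (p a) b).rank = _
    rw [hp2]
    by_cases h : a = b
    · subst h
      rw [if_pos rfl, Pi.single_eq_same, rank_single_one]
    · rw [if_neg h, Pi.single_eq_of_ne (Ne.symm h), rank_zero]
  std ι _ _ M hM := by
    obtain ⟨κ, i1, i2, β, h⟩ := std_quot π M hM
    refine ⟨κ, i1, i2, β, lift_eqv π hs hnil hM (diag_idem fun j => hp1 _) ?_⟩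
    have e : (Matrix.diagonal fun j => p (β j)).map π = Matrix.diagonal fun j =>
        (Pi.single (β j) (Matrix.single 0 0 1) : Π i, Matrix (Fin (d i)) (Fin (d i)) K) := by
      rw [Matrix.diagonal_map (map_zero π)]
      congr 1
      funext j
      exact hp2 _
    rw [e]
    exact h

end construct

end Pool.Agent.KS6_48.LC
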