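import Pool.Agent.KS6_48.LC.RK1
import Pool.Graph.R_seed8.Y83.Lpa3

/-!
# Rank data of finite dimensional algebras; the step lemma over an arbitrary field
-/

namespace Pool.Agent.KS6_48.LC

open Matrix Pool.Agent.Y83

theorem exists_kdata (K : Type) (T : Type) [Field K] [IsAlgClosed K] [Ring T]
    [Algebra K T] [FiniteDimensional K T] : ∃ n, Nonempty (KData K T n) := by
  classical
  have : IsArtinianRing T := IsArtinianRing.of_finite K T
  have : IsSemiprimaryRing T := inferInstance
  obtain ⟨n, d, hd, ⟨e⟩⟩ := IsSemisimpleRing.exists_algEquiv_pi_matrix_of_isAlgClosed K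
    (T ⧸ Ring.jacobson T)
  have := hd
  let π : T →ₐ[K] (Π i, Matrix (Fin (d i)) (Fin (d i)) K) :=
    (e : _ →ₐ[K] _).comp (Ideal.Quotient.mkₐ K (Ring.jacobson T))
  have hπs : Function.Surjective π :=
    e.surjective.comp (Ideal.Quotient.mkₐ_surjective K _)
  have hker : ∀ x, π x = 0 → x ∈ Ring.jacobson T := by
    intro x hx
    have h1 : Ideal.Quotient.mkₐ K (Ring.jacobson T) x = 0 := by
      apply e.injective
      rw [map_zero]; exact hx
    rw [← Ideal.Quotient.eq_zero_iff_mem]
    exact h1
  obtain ⟨k, hk⟩ := IsSemiprimaryRing.isNilpotent (R := T)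
  have hnil : ∀ (ι : Type) [Fintype ι] [DecidableEq ι] (M : Matrix ι ι T),
      (∀ i j, π.toRingHom (M i j) = 0) → IsNilpotent M := by
    intro ι _ _ M hM
    have h1 : ∀ m i j, (M ^ (m + 1)) i j ∈ (Ring.jacobson T) ^ (m + 1) := by
      intro m
      induction m with
      | zero =>
        intro i j
        have e1 : (M ^ (0 + 1)) i j = M i j := by rw [zero_add, pow_one]
        have e2 : (Ring.jacobson T) ^ (0 + 1) = Ring.jacobson T := Submodule.pow_one _
        rw [e1, e2]
        exact hker _ (hM i j)
      | succ m ih =>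
        intro i j
        have e1 : (M ^ (m + 1 + 1)) i j = ∑ l, (M ^ (m + 1)) i l * M l j := by
          rw [pow_succ M (m + 1), Matrix.mul_apply]
        have e2 : (Ring.jacobson T) ^ (m + 1 + 1) = (Ring.jacobson T) ^ (m + 1) *
            Ring.jacobson T := Submodule.pow_succ (M := Ring.jacobson T)
        rw [e1, e2]
        exact Submodule.sum_mem _ fun l _ => Ideal.mul_mem_mul (ih i l) (hker _ (hM l j))
    refine ⟨k + 1, ?_⟩
    ext i j
    have h2 := h1 k i j
    have e2 : (Ring.jacobson T) ^ (k + 1) = (Ring.jacobson T) ^ k *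
        Ring.jacobson T := Submodule.pow_succ (M := Ring.jacobson T)
    have e3 : (0 : Ideal T) * Ring.jacobson T = ⊥ := Submodule.bot_mul _
    rw [e2, hk, e3] at h2
    exact h2
  have hker' : ∀ x, π x = 0 → IsNilpotent x := by
    intro x hx
    refine ⟨k, ?_⟩
    have h3 : x ^ k ∈ (Ring.jacobson T) ^ k := Ideal.pow_mem_pow (hker x hx) k
    rw [hk] at h3
    exact h3
  let E₀ : Fin n → (Π i, Matrix (Fin (d i)) (Fin (d i)) K) := fun a =>
    Pi.single a (Matrix.single 0 0 1)
  have hlift : ∀ a : Fin n, ∃ e' : T, IsIdempotentElem e' ∧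
      π e' = Pi.single a (Matrix.single 0 0 1) := by
    intro a
    refine exists_isIdempotentElem_eq_of_ker_isNilpotent π.toRingHom (fun x hx => hker' x hx)
      (E₀ a) ?_ ?_
    · obtain ⟨y, hy⟩ := hπs (Pi.single a (Matrix.single 0 0 1))
      exact ⟨y, hy⟩
    · change E₀ a * E₀ a = E₀ a
      simp only [E₀]
      rw [← Pi.single_mul, Matrix.single_mul_single_same, mul_one]
  choose p hp1 hp2 using hlift
  exact ⟨n, ⟨KData.ofSurj π.toRingHom hπs hnil p hp1 hp2⟩⟩

/-- Rank data of a finite product of copies of the field. -/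
noncomputable def KData.pi (K : Type) [Field K] (V : Type) [Fintype V] [DecidableEq V]
    {n : ℕ} (σ : Fin n ≃ V) : KData K (V → K) n :=
  KData.ofSurj (d := fun _ => 1)
    { toFun := fun x i => Matrix.of fun _ _ => x (σ i)
      map_one' := by
        funext i
        ext s t
        rw [Subsingleton.elim s t]
        simp
      map_mul' := fun x y => by
        funext i
        ext s t
        simp [Matrix.mul_apply]
      map_zero' := rfl
      map_add' := fun x y => rfl }
    (by
      intro y
      refine ⟨fun v => y (σ.symm v) 0 0, ?_⟩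
      funext i
      ext s t
      rw [Subsingleton.elim s 0, Subsingleton.elim t 0]
      change y (σ.symm (σ i)) 0 0 = y i 0 0
      rw [Equiv.symm_apply_apply])
    (by
      intro ι _ _ M hM
      have : M = 0 := by
        ext i j v
        have h1 := congrFun (hM i j) (σ.symm v)
        have h2 := congrFun (congrFun h1 0) 0
        change M i j (σ (σ.symm v)) = 0 at h2
        rw [Equiv.apply_symm_apply] at h2
        exact h2
      rw [this]
      exact IsNilpotent.zero)
    (fun a => Pi.single (σ a) 1)
    (fun a => by rw [← Pi.single_mul, mul_one])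
    (fun a => by
      funext i
      ext s t
      rw [Subsingleton.elim s 0, Subsingleton.elim t 0]
      change (Pi.single (σ a) 1 : V → K) (σ i) = _
      by_cases h : i = a
      · subst h
        rw [Pi.single_eq_same, Pi.single_eq_same, Matrix.single_apply_same]
      · rw [Pi.single_eq_of_ne (fun h' => h (σ.injective h')), Pi.single_eq_of_ne h]
        rfl)

theorem KData.pi_p (K : Type) [Field K] (V : Type) [Fintype V] [DecidableEq V]
    {n : ℕ} (σ : Fin n ≃ V) (a : Fin n) : (KData.pi K V σ).p a = Pi.single (σ a) 1 := rfl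

/-- Transport of rank data along an isomorphism of rings. -/
def KData.map {K T T' : Type} [Field K] [Ring T] [Ring T'] {n : ℕ} (D : KData K T n)
    (e : T ≃+* T') : KData K T' n where
  d := D.d
  π a := (D.π a).comp (e.symm : T' →ₙ+* T)
  p a := e (D.p a)
  p_idem a := by rw [← map_mul, D.p_idem]
  dual a b := by
    change (D.π b (e.symm (e (D.p a)))).rank = _
    rw [RingEquiv.symm_apply_apply, D.dual]
  std ι _ _ M hM := by
    obtain ⟨κ, i1, i2, β, x, y, h1, h2⟩ := D.std ι (M.map e.symm) (by rw [← Matrix.map_mul, hM])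
    refine ⟨κ, i1, i2, β, x.map e, y.map e, ?_, ?_⟩
    · rw [← Matrix.map_mul, h1]
      ext i j
      simp
    · rw [← Matrix.map_mul, h2, Matrix.diagonal_map (map_zero e)]

end Pool.Agent.KS6_48.LC
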