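import Pool.Agent.KS6_48.LC.RK2

/-!
# The chain of levels of a Cuntz-Krieger family over an arbitrary field
-/

namespace Pool.Agent.KS6_48.LC

open Matrix Pool.Agent.Y83

section

variable {G : FGraph} {B : Type} [Ring B] (η : CKF G B) {K : Type} [Field K] [Algebra K B]

/-- The compression as a matrix valued homomorphism over the field. -/
def cmp {T' T : Subalgebra K B} (h : ∀ t ∈ T', ∀ e f, η.w e * t * η.z f ∈ T) {μ : Type}
    [Fintype μ] (Ψ : T →ₙ+* Matrix μ μ K) : T' →ₙ+* Matrix (G.E × μ) (G.E × μ) K where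
  toFun t := fl Ψ (η.tm h t)
  map_mul' t t' := by
    change fl Ψ (η.tm h (t * t')) = fl Ψ (η.tm h t) * fl Ψ (η.tm h t')
    rw [η.tm_mul, fl_mul]
  map_zero' := by
    change fl Ψ (η.tm h 0) = 0
    rw [η.tm_zero]
    ext p q
    simp [fl]
  map_add' t t' := by
    change fl Ψ (η.tm h (t + t')) = fl Ψ (η.tm h t) + fl Ψ (η.tm h t')
    have e : ∀ e f, η.tm h (t + t') e f = η.tm h t e f + η.tm h t' e f := by
      intro e f
      apply Subtype.ext
      simp [CKF.tm, mul_add, add_mul]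
    ext p q
    simp [fl, e]

/-- A weighted matrix represents the action of the family on the rank data of `T`. -/
def Rep (T : Subalgebra K B) (X : WM) : Prop :=
  ∃ (h : ∀ t ∈ T, ∀ e f, η.w e * t * η.z f ∈ T) (D : KData K T X.n),
    (∀ a b, X.A a b = (fl (D.π b) (η.tm h (D.p a))).rank) ∧ ∀ a, X.u a = (D.π a 1).rank

theorem exists_rep [IsAlgClosed K] (T : Subalgebra K B)
    [FiniteDimensional K T] (h : ∀ t ∈ T, ∀ e f, η.w e * t * η.z f ∈ T) :
    ∃ X : WM, Rep η T X := by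
  obtain ⟨n, ⟨D⟩⟩ := exists_kdata K T
  exact ⟨⟨n, fun a b => (fl (D.π b) (η.tm h (D.p a))).rank, fun a => (D.π a 1).rank⟩, h, D,
    fun a b => rfl, fun a => rfl⟩

/-- The inclusion of subalgebras followed by a homomorphism. -/
def inc {T T' : Subalgebra K B} (hTT' : T ≤ T') {μ : Type} [Fintype μ]
    (Ψ : T' →ₙ+* Matrix μ μ K) : T →ₙ+* Matrix μ μ K where
  toFun t := Ψ (Subalgebra.inclusion hTT' t)
  map_mul' t t' := by rw [map_mul, map_mul]
  map_zero' := by rw [map_zero, map_zero]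
  map_add' t t' := by rw [map_add, map_add]

/-- The step lemma. -/
theorem Rep.step {T T' : Subalgebra K B} (hTT' : T ≤ T')
    (h' : ∀ t ∈ T', ∀ e f, η.w e * t * η.z f ∈ T) {X Y : WM}
    (hX : Rep η T X) (hY : Rep η T' Y) : X.Step Y := by
  obtain ⟨h1, D, hA, hu⟩ := hX
  obtain ⟨h2, D', hA', hu'⟩ := hY
  let i := Subalgebra.inclusion hTT'
  let R : Matrix (Fin X.n) (Fin Y.n) ℕ := Matrix.of fun a b => (D'.π b (i (D.p a))).rank
  let S : Matrix (Fin Y.n) (Fin X.n) ℕ := Matrix.of fun b a =>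
    (fl (D.π a) (η.tm h' (D'.p b))).rank
  have hip : ∀ a, i (D.p a) * i (D.p a) = i (D.p a) := fun a => by
    rw [← map_mul, D.p_idem]
  have hinc : ∀ t : T, η.tm h' (i t) = η.tm h1 t := fun t => rfl
  refine ⟨R, S, ?_, ?_, ?_⟩
  · ext a a'
    have h3 := D'.span_one (cmp η h' (D.π a')) (i (D.p a)) (hip a)
    rw [hA, Matrix.mul_apply]
    exact h3
  · ext b b'
    have h4 : η.tm h' (D'.p b) * η.tm h' (D'.p b) = η.tm h' (D'.p b) := by
      rw [← η.tm_mul, D'.p_idem]
    have h3 := D.span (inc hTT' (D'.π b')) (η.tm h' (D'.p b)) h4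
    rw [hA', Matrix.mul_apply]
    exact h3
  · funext b
    have h3 := D.span_one (inc hTT' (D'.π b)) 1 (mul_one 1)
    have h5 : inc hTT' (D'.π b) 1 = D'.π b 1 := by
      change D'.π b (i 1) = D'.π b 1
      rw [map_one]
    rw [h5] at h3
    rw [hu', h3]
    simp only [Matrix.vecMul, dotProduct]
    refine Finset.sum_congr rfl fun a _ => ?_
    rw [hu]
    rfl

/-- The chain theorem. -/
theorem chain [IsAlgClosed K] (T : ℕ → Subalgebra K B)
    (hfin : ∀ i, FiniteDimensional K (T i)) (hmono : ∀ i, T i ≤ T (i + 1))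
    (h0 : ∀ t ∈ T 0, ∀ e f, η.w e * t * η.z f ∈ T 0)
    (h : ∀ i, ∀ t ∈ T (i + 1), ∀ e f, η.w e * t * η.z f ∈ T i)
    {X : WM} (hX : Rep η (T 0) X) (i : ℕ) :
    ∀ {Y : WM}, Rep η (T i) Y → Relation.EqvGen WM.Step X Y := by
  induction i with
  | zero =>
    intro Y hY
    exact Relation.EqvGen.rel _ _ (hX.step η le_rfl h0 hY)
  | succ i ih =>
    intro Y hY
    have hc : ∀ t ∈ T i, ∀ e f, η.w e * t * η.z f ∈ T i := by
      cases i with
      | zero => exact h0
      | succ i => exact fun t ht e f => hmono i (h i t ht e f)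
    have := hfin i
    obtain ⟨Z, hZ⟩ := exists_rep η (T i) hc
    exact Relation.EqvGen.trans _ _ _ (ih hZ)
      (Relation.EqvGen.rel _ _ (hZ.step η (hmono i) (h i) hY))

variable (K)

theorem rank_diag_ite {E : Type} [Fintype E] [DecidableEq E] {μ : Type} [Fintype μ]
    [DecidableEq μ] [Unique μ] (P : E → Prop) [DecidablePred P] (M : Matrix (E × μ) (E × μ) K)
    (hM : ∀ p q, M p q = if p.1 = q.1 ∧ P p.1 then 1 else 0) :
    M.rank = (Finset.univ.filter P).card := by
  classical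
  have h : M = Matrix.diagonal fun p : E × μ => if P p.1 then (1 : K) else 0 := by
    ext p q
    rw [hM, Matrix.diagonal_apply]
    by_cases h : p = q
    · subst h
      simp
    · have : p.1 ≠ q.1 := fun h' => h (Prod.ext h' (Subsingleton.elim _ _))
      rw [if_neg h, if_neg (fun h' => this h'.1)]
  rw [h, Matrix.rank_diagonal, Fintype.card_subtype]
  have e1 : (Finset.univ.filter fun p : E × μ => (if P p.1 then (1 : K) else 0) ≠ 0) =
      (Finset.univ.filter P) ×ˢ (Finset.univ : Finset μ) := by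
    ext p
    rw [Finset.mem_filter, Finset.mem_product, Finset.mem_filter]
    by_cases hp : P p.1
    · simp only [hp, Finset.mem_univ, true_and, and_true]
      exact iff_of_true one_ne_zero trivial
    · simp only [hp, Finset.mem_univ, true_and, and_true]
      exact iff_of_false (fun h => h rfl) id
  rw [e1, Finset.card_product]
  simp

theorem rep_zero (hq : ∀ v, η.q v ≠ 0) {n : ℕ} (σ : Fin n ≃ G.V) :
    Rep η (η.lev K 0) (G.wm σ) := by
  have hz : ∀ t ∈ η.lev K 0, ∀ e f, η.w e * t * η.z f ∈ η.lev K 0 := η.wz_levS_zero K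
  let ε := η.lev0Equiv K hq
  refine ⟨hz, (KData.pi K G.V σ).map ε.toRingEquiv, ?_, ?_⟩
  · intro a b
    have h1 : ∀ e f, η.tm hz (ε (Pi.single (σ a) (1 : K))) e f =
        ε (if e = f ∧ G.s e = σ a then Pi.single (G.r e) 1 else 0) := by
      intro e f
      apply Subtype.ext
      change η.w e * η.qlin K (Pi.single (σ a) (1 : K)) * η.z f = _
      rw [η.qlin_single, η.w_q]
      change _ = η.qlin K _
      by_cases h2 : G.s e = σ a
      · rw [if_pos h2, η.ck1]
        by_cases h3 : e = f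
        · rw [if_pos h3, if_pos ⟨h3, h2⟩, η.qlin_single]
        · rw [if_neg h3, if_neg (fun h => h3 h.1), map_zero]
      · rw [if_neg h2, zero_mul, if_neg (fun h => h2 h.2), map_zero]
    symm
    change (fl (((KData.pi K G.V σ).map ε.toRingEquiv).π b)
      (η.tm hz (ε (Pi.single (σ a) (1 : K))))).rank =
      (Finset.univ.filter fun e => G.s e = σ a ∧ G.r e = σ b).card
    refine rank_diag_ite (μ := Fin 1) K (fun e => G.s e = σ a ∧ G.r e = σ b) _ ?_
    intro p q
    change (ε.symm (η.tm hz (ε (Pi.single (σ a) (1 : K))) p.1 q.1)) (σ b) = _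
    rw [h1, AlgEquiv.symm_apply_apply]
    by_cases h2 : p.1 = q.1 ∧ G.s p.1 = σ a
    · rw [if_pos h2, Pi.single_apply]
      by_cases h3 : G.r p.1 = σ b
      · rw [if_pos h3.symm, if_pos ⟨h2.1, h2.2, h3⟩]
      · rw [if_neg (Ne.symm h3), if_neg (fun h => h3 h.2.2)]
    · rw [if_neg h2, if_neg (fun h => h2 ⟨h.1, h.2.1⟩)]
      rfl
  · intro a
    symm
    change (Matrix.of fun _ _ : Fin 1 => (ε.symm 1) (σ a)).rank = 1
    rw [map_one]
    have : (Matrix.of fun _ _ : Fin 1 => (1 : G.V → K) (σ a)) = 1 := by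
      ext s t
      rw [Subsingleton.elim s t]
      simp
    rw [this, rank_one]
    rfl

variable {K}

theorem rank_tm_le {H : FGraph} {γ : CKF H B} {η : CKF G B} {T : Subalgebra K B}
    (h : ∀ t ∈ T, ∀ e f, γ.w e * t * γ.z f ∈ T) (h' : ∀ t ∈ T, ∀ e f, η.w e * t * η.z f ∈ T)
    (h1 : ∀ e f, γ.w e * η.z f ∈ T) (h2 : ∀ e f, η.w e * γ.z f ∈ T)
    {μ : Type} [Fintype μ] (Ψ : T →ₙ+* Matrix μ μ K) (t : T) :
    (fl Ψ (η.tm h' t)).rank ≤ (fl Ψ (γ.tm h t)).rank := by
  let m : Matrix H.E G.E T := fun e f => ⟨γ.w e * η.z f, h1 e f⟩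
  let m' : Matrix G.E H.E T := fun e f => ⟨η.w e * γ.z f, h2 e f⟩
  have e1 : η.tm h' t = m' * (γ.tm h t * m) := by
    ext e f
    simp only [Matrix.mul_apply, AddSubmonoidClass.coe_finsetSum, MulMemClass.coe_mul]
    change η.w e * (t : B) * η.z f = ∑ g, η.w e * γ.z g *
      ∑ g', γ.w g * (t : B) * γ.z g' * (γ.w g' * η.z f)
    conv_lhs => rw [γ.sum_decomp (t : B)]
    rw [Finset.mul_sum, Finset.sum_mul]
    refine Finset.sum_congr rfl fun g _ => ?_
    rw [Finset.mul_sum, Finset.sum_mul, Finset.mul_sum]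
    refine Finset.sum_congr rfl fun g' _ => ?_
    simp only [mul_assoc]
  rw [e1, fl_mul, fl_mul]
  exact (rank_mul_le_right _ _).trans (rank_mul_le_left _ _)

/-- If two families are related through a subalgebra, they have the same representing weighted
matrices on it. -/
theorem Rep.transfer {H : FGraph} {γ : CKF H B} {η : CKF G B} {T : Subalgebra K B} {X : WM}
    (h : ∀ t ∈ T, ∀ e f, γ.w e * t * γ.z f ∈ T)
    (h1 : ∀ e f, γ.w e * η.z f ∈ T) (h2 : ∀ e f, η.w e * γ.z f ∈ T)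
    (hX : Rep η T X) : Rep γ T X := by
  obtain ⟨h', D, hA, hu⟩ := hX
  refine ⟨h, D, fun a b => ?_, hu⟩
  rw [hA]
  exact le_antisymm (rank_tm_le h h' h1 h2 _ _) (rank_tm_le h' h h2 h1 _ _)

/-- Two families with intertwined filtrations: the graphs are strong shift equivalent. -/
theorem sse_of_families [IsAlgClosed K] {H : FGraph} (γ : CKF G B) (η : CKF H B)
    (hγ : ∀ v, γ.q v ≠ 0) (hη : ∀ v, η.q v ≠ 0) (n M : ℕ)
    (h1 : ∀ v, η.q v ∈ γ.lev K n)
    (h2 : ∀ e f, γ.w e * η.z f ∈ γ.lev K n) (h3 : ∀ e f, η.w e * γ.z f ∈ γ.lev K n)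
    (h4 : γ.lev K n ≤ η.lev K M)
    {a b : ℕ} (σ : Fin a ≃ G.V) (ρ : Fin b ≃ H.V) :
    Relation.EqvGen WM.Step (G.wm σ) (H.wm ρ) := by
  have hc : ∀ t ∈ γ.lev K n, ∀ e f, γ.w e * t * γ.z f ∈ γ.lev K n := (γ.levS_aux K n).1
  obtain ⟨Y, hY⟩ := exists_rep γ (γ.lev K n) hc
  -- the chain for `γ`
  have c1 : Relation.EqvGen WM.Step (G.wm σ) Y :=
    chain γ (fun i => γ.lev K i) (fun i => inferInstance) (fun i => γ.levS_mono K (Nat.le_succ i))
      (γ.wz_levS_zero K) (fun i t ht e f => γ.wz_mem K i t ht e f) (rep_zero γ K hγ σ) n hY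
  -- the chain for `η`
  have hd : ∀ t ∈ γ.lev K n, ∀ e f, η.w e * t * η.z f ∈ γ.lev K n := by
    intro t ht e f
    rw [γ.sum_decomp t, Finset.mul_sum, Finset.sum_mul]
    refine Subalgebra.sum_mem _ fun e' _ => ?_
    rw [Finset.mul_sum, Finset.sum_mul]
    refine Subalgebra.sum_mem _ fun f' _ => ?_
    have e1 : η.w e * (γ.z e' * (γ.w e' * t * γ.z f') * γ.w f') * η.z f =
        (η.w e * γ.z e') * (γ.w e' * t * γ.z f') * (γ.w f' * η.z f) := by
      simp only [mul_assoc]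
    rw [e1]
    exact mul_mem (mul_mem (h3 _ _) (hc t ht _ _)) (h2 _ _)
  have c2 : Relation.EqvGen WM.Step (H.wm ρ) Y := by
    have hT0 : γ.lev K n ⊓ η.lev K 0 = η.lev K 0 := by
      refine inf_eq_right.mpr ?_
      have : η.levS K 0 ≤ γ.levS K n := by
        refine Submodule.span_le.mpr ?_
        rintro _ ⟨v, rfl⟩
        exact h1 v
      exact this
    have hTM : γ.lev K n ⊓ η.lev K M = γ.lev K n := inf_eq_left.mpr h4
    refine chain η (fun i => γ.lev K n ⊓ η.lev K i) (fun i => ?_)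
      (fun i => inf_le_inf_left _ (η.levS_mono K (Nat.le_succ i)))
      (fun t ht e f => ⟨hd t ht.1 e f, η.wz_levS_zero K t ht.2 e f⟩)
      (fun i t ht e f => ⟨hd t ht.1 e f, η.wz_mem K i t ht.2 e f⟩)
      (X := H.wm ρ) ?_ M (Y := Y) ?_
    · have : FiniteDimensional K (Subalgebra.toSubmodule (γ.lev K n)) := γ.levS_fin K n
      exact Submodule.finiteDimensional_of_le
        (S₁ := Subalgebra.toSubmodule (γ.lev K n ⊓ η.lev K i))
        (S₂ := Subalgebra.toSubmodule (γ.lev K n)) inf_le_left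
    · rw [hT0]
      exact rep_zero η K hη ρ
    · rw [hTM]
      exact hY.transfer hd h3 h2
  exact Relation.EqvGen.trans _ _ _ c1 (Relation.EqvGen.symm _ _ c2)

end

/-- Graded isomorphic Leavitt path algebras come from strong shift equivalent graphs. -/
theorem sse_of_gradedIso (K : Type) [Field K] [IsAlgClosed K] {G H : FGraph}
    (hG : G.NoSinks) (hH : H.NoSinks) (h : GradedIso K G H) {a b : ℕ} (σ : Fin a ≃ G.V)
    (ρ : Fin b ≃ H.V) : Relation.EqvGen WM.Step (G.wm σ) (H.wm ρ) := by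
  obtain ⟨φ, hφ⟩ := h
  let γ : CKF G (LPA K H) := ((LPA.fam K G).map (φ : LPA K G →+* LPA K H)).toCKF hG
  let η : CKF H (LPA K H) := LPA.ck K hH
  -- the levels of `γ`
  have hlev : ∀ i, γ.levS K i = ((LPA.ck K hG).levS K i).map φ.toLinearMap := by
    intro i
    induction i with
    | zero =>
      simp only [CKF.levS, Submodule.map_span]
      congr 1
      rw [← Set.range_comp]
      rfl
    | succ i ih =>
      simp only [CKF.levS, Submodule.map_iSup, ih]
      refine iSup_congr fun p => ?_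
      rw [← Submodule.map_comp, ← Submodule.map_comp]
      congr 1
      refine LinearMap.ext fun x => ?_
      change γ.z p.1 * (φ x * γ.w p.2) =
        φ ((LPA.ck K hG).z p.1 * (x * (LPA.ck K hG).w p.2))
      rw [map_mul, map_mul]
      rfl
  have hmem : ∀ y ∈ LPA.gr K H 0, ∃ i, y ∈ γ.levS K i := by
    intro y hy
    have h1 : φ.symm y ∈ LPA.gr K G 0 := by rw [hφ, AlgEquiv.apply_symm_apply]; exact hy
    obtain ⟨i, hi⟩ := LPA.exists_lev_of_mem K hG h1
    refine ⟨i, ?_⟩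
    rw [hlev]
    exact ⟨φ.symm y, hi, by simp⟩
  have hγ : ∀ v, γ.q v ≠ 0 := by
    intro v hv
    apply LPA.q_ne_zero K hG v
    apply φ.injective
    rw [map_zero]
    exact hv
  have hη : ∀ v, η.q v ≠ 0 := LPA.q_ne_zero K hH
  -- the finitely many elements
  have d1 : ∀ v, ∃ i, η.q v ∈ γ.levS K i := fun v => hmem _ (LPA.gen_mem_gr K (.vt v))
  have d2 : ∀ e f, ∃ i, γ.w e * η.z f ∈ γ.levS K i := by
    intro e f
    refine hmem _ ?_
    have h1 : γ.w e ∈ LPA.gr K H (-1) := (hφ _ _).mp (LPA.gen_mem_gr K (.gh e))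
    have h2 : η.z f ∈ LPA.gr K H 1 := LPA.gen_mem_gr K (.ed f)
    simpa using LPA.mul_mem_gr K h1 h2
  have d3 : ∀ e f, ∃ i, η.w e * γ.z f ∈ γ.levS K i := by
    intro e f
    refine hmem _ ?_
    have h1 : η.w e ∈ LPA.gr K H (-1) := LPA.gen_mem_gr K (.gh e)
    have h2 : γ.z f ∈ LPA.gr K H 1 := (hφ _ _).mp (LPA.gen_mem_gr K (.ed f))
    simpa using LPA.mul_mem_gr K h1 h2
  choose i1 hi1 using d1
  choose i2 hi2 using d2
  choose i3 hi3 using d3
  let n : ℕ := (Finset.univ.sup i1) ⊔ (Finset.univ.sup fun p : G.E × H.E => i2 p.1 p.2) ⊔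
    (Finset.univ.sup fun p : H.E × G.E => i3 p.1 p.2)
  have n1 : ∀ v, i1 v ≤ n := fun v =>
    le_trans (Finset.le_sup (Finset.mem_univ v)) (le_trans le_sup_left le_sup_left)
  have n2 : ∀ e f, i2 e f ≤ n := fun e f =>
    le_trans (Finset.le_sup (f := fun p : G.E × H.E => i2 p.1 p.2) (Finset.mem_univ (e, f)))
      (le_trans le_sup_right le_sup_left)
  have n3 : ∀ e f, i3 e f ≤ n := fun e f =>
    le_trans (Finset.le_sup (f := fun p : H.E × G.E => i3 p.1 p.2) (Finset.mem_univ (e, f)))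
      le_sup_right
  -- the top level
  obtain ⟨M, hM⟩ : ∃ M, γ.levS K n ≤ η.levS K M := by
    refine LPA.exists_lev_of_le K hH ?_ ?_
    · have := γ.levS_fin K n
      exact Module.Finite.iff_fg.mp this
    · rw [hlev]
      rintro _ ⟨x, hx, rfl⟩
      exact (hφ _ _).mp (LPA.levS_le_gr K hG n hx)
  exact sse_of_families (K := K) γ η hγ hη n M (fun v => γ.levS_mono K (n1 v) (hi1 v))
    (fun e f => γ.levS_mono K (n2 e f) (hi2 e f)) (fun e f => γ.levS_mono K (n3 e f) (hi3 e f))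
    hM σ ρ

end Pool.Agent.KS6_48.LC
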