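import Pool.Agent.KS6_48.LC.RK3
import Pool.Graph.R_seed8.Y83.Lk5

set_option linter.unusedSectionVars false
set_option linter.unusedVariables false

/-!
# The multiplicities of standard idempotents over an arbitrary field
-/

namespace Pool.Agent.KS6_48.LC

open Matrix Pool.Agent.Y83 Pool.Agent.Y83.LPA

noncomputable section

section spans

variable {G : FGraph} {B : Type} [Ring B] (η : CKF G B) (K : Type) [Field K] [Algebra K B]

/-- the span of the words of edges followed by a vertex -/
def Zs (m : ℕ) : Submodule K B :=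
  Submodule.span K (Set.range fun p : G.LW m × G.V => η.zl m p.1 * η.q p.2)

/-- the span of the words of ghost edges preceded by a vertex -/
def Ws (m : ℕ) : Submodule K B :=
  Submodule.span K (Set.range fun p : G.LW m × G.V => η.q p.2 * η.wl m p.1)

theorem z_mul_Zs (m : ℕ) (e : G.E) : ∀ x ∈ Zs η K m, η.z e * x ∈ Zs η K (m + 1) := by
  intro x hx
  have h : Zs η K m ≤ (Zs η K (m + 1)).comap (LinearMap.mulLeft K (η.z e)) := by
    refine Submodule.span_le.mpr ?_
    rintro _ ⟨⟨l, v⟩, rfl⟩
    refine Submodule.subset_span ⟨((e, l), v), ?_⟩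
    change η.z e * η.zl m l * η.q v = η.z e * (η.zl m l * η.q v)
    rw [mul_assoc]
  exact h hx

theorem Ws_mul_w (m : ℕ) (e : G.E) : ∀ x ∈ Ws η K m, x * η.w e ∈ Ws η K (m + 1) := by
  intro x hx
  have h : Ws η K m ≤ (Ws η K (m + 1)).comap (LinearMap.mulRight K (η.w e)) := by
    refine Submodule.span_le.mpr ?_
    rintro _ ⟨⟨l, v⟩, rfl⟩
    refine Submodule.subset_span ⟨((e, l), v), ?_⟩
    change η.q v * (η.wl m l * η.w e) = (η.q v * η.wl m l) * η.w e
    rw [mul_assoc]
  exact h hx

theorem Ws_lev_Zs (m : ℕ) (x t y : B) (hx : x ∈ Ws η K m) (ht : t ∈ η.levS K m)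
    (hy : y ∈ Zs η K m) : x * t * y ∈ η.levS K 0 := by
  have h : Ws η K m ≤ (η.levS K 0).comap (LinearMap.mulRight K (t * y)) := by
    refine Submodule.span_le.mpr ?_
    rintro _ ⟨⟨l, v⟩, rfl⟩
    change (η.q v * η.wl m l) * (t * y) ∈ η.levS K 0
    have h2 : Zs η K m ≤ (η.levS K 0).comap (LinearMap.mulLeft K ((η.q v * η.wl m l) * t)) := by
      refine Submodule.span_le.mpr ?_
      rintro _ ⟨⟨l', v'⟩, rfl⟩
      change (η.q v * η.wl m l) * t * (η.zl m l' * η.q v') ∈ η.levS K 0
      have e : (η.q v * η.wl m l) * t * (η.zl m l' * η.q v') =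
          η.q v * (η.wl m l * t * η.zl m l') * η.q v' := by simp only [mul_assoc]
      rw [e]
      have h3 := η.wl_zl_mem K m m t ht l l'
      rw [Nat.sub_self] at h3
      exact η.mul_q_mem K 0 _ (η.q_mul_mem K 0 _ h3 v) v'
    have := h2 hy
    change (η.q v * η.wl m l) * t * y ∈ η.levS K 0 at this
    rw [← mul_assoc]
    exact this
  have := h hx
  change x * (t * y) ∈ η.levS K 0 at this
  rw [mul_assoc]
  exact this

end spans

variable (K : Type) [Field K] {G : FGraph} (hG : G.NoSinks)

/-- The relation coming from the Cuntz-Krieger relations, with explicit matrices. -/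
theorem Est_succ {ι : Type} [Fintype ι] [DecidableEq ι] (α : ι → G.V) :
    (Matrix.of fun (i : ι) (p : {p : ι × G.E // G.s p.2 = α p.1}) =>
        if i = p.1.1 then (ck K hG).z p.1.2 else 0) *
      (Matrix.of fun (p : {p : ι × G.E // G.s p.2 = α p.1}) (i : ι) =>
        if i = p.1.1 then (ck K hG).w p.1.2 else 0) = Est K hG α ∧
    (Matrix.of fun (p : {p : ι × G.E // G.s p.2 = α p.1}) (i : ι) =>
        if i = p.1.1 then (ck K hG).w p.1.2 else 0) *
      (Matrix.of fun (i : ι) (p : {p : ι × G.E // G.s p.2 = α p.1}) =>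
        if i = p.1.1 then (ck K hG).z p.1.2 else 0) =
      Est K hG (fun p : {p : ι × G.E // G.s p.2 = α p.1} => G.r p.1.2) := by
  constructor
  · ext i j
    rw [Matrix.mul_apply]
    simp only [Matrix.of_apply]
    have h1 : ∀ p : {p : ι × G.E // G.s p.2 = α p.1},
        (if i = p.1.1 then (ck K hG).z p.1.2 else 0) *
          (if j = p.1.1 then (ck K hG).w p.1.2 else 0) =
        (fun p : ι × G.E => if i = p.1 ∧ j = p.1 then (ck K hG).z p.2 * (ck K hG).w p.2 else 0)
          p.1 := by
      intro p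
      change _ = if i = p.1.1 ∧ j = p.1.1 then (ck K hG).z p.1.2 * (ck K hG).w p.1.2 else 0
      by_cases h1 : i = p.1.1
      · by_cases h2 : j = p.1.1
        · rw [if_pos h1, if_pos h2, if_pos ⟨h1, h2⟩]
        · rw [if_pos h1, if_neg h2, if_neg (fun h => h2 h.2), mul_zero]
      · rw [if_neg h1, zero_mul, if_neg (fun h => h1 h.1)]
    rw [Finset.sum_congr rfl fun p _ => h1 p]
    refine (Finset.sum_subtype (p := fun p : ι × G.E => G.s p.2 = α p.1)
      (Finset.univ.filter fun p : ι × G.E => G.s p.2 = α p.1) (by simp)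
      (fun p : ι × G.E => if i = p.1 ∧ j = p.1 then (ck K hG).z p.2 * (ck K hG).w p.2
        else 0)).symm.trans ?_
    rw [Finset.sum_filter, Fintype.sum_prod_type]
    by_cases hij : i = j
    · subst hij
      rw [Est, Matrix.diagonal_apply_eq, Finset.sum_eq_single i]
      · rw [← (ck K hG).ck2 (α i), Finset.sum_filter]
        refine Finset.sum_congr rfl fun e _ => ?_
        simp
      · intro b _ hb
        refine Finset.sum_eq_zero fun e _ => ?_
        simp [Ne.symm hb]
      · intro h; exact absurd (Finset.mem_univ _) h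
    · rw [Est, Matrix.diagonal_apply_ne _ hij]
      refine Finset.sum_eq_zero fun b _ => Finset.sum_eq_zero fun e _ => ?_
      have : ¬ (i = b ∧ j = b) := fun h => hij (h.1.trans h.2.symm)
      simp [this]
  · ext p p'
    rw [Matrix.mul_apply]
    simp only [Matrix.of_apply]
    rw [Finset.sum_eq_single p.1.1]
    · rw [if_pos rfl]
      by_cases h : p = p'
      · subst h
        rw [Est, Matrix.diagonal_apply_eq, if_pos rfl, (ck K hG).ck1, if_pos rfl]
      · rw [Est, Matrix.diagonal_apply_ne _ h]
        split_ifs with h1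
        · rw [(ck K hG).ck1, if_neg]
          intro h2
          exact h (Subtype.ext (Prod.ext h1 h2))
        · rw [mul_zero]
    · intro b _ hb
      rw [if_neg hb, zero_mul]
    · intro h; exact absurd (Finset.mem_univ _) h

/-- Raising the level with control of the matrices. -/
theorem raise' (m : ℕ) : ∀ {ι : Type} [Fintype ι] [DecidableEq ι] (α : ι → G.V),
    ∃ (κ : Type) (_ : Fintype κ) (_ : DecidableEq κ) (β : κ → G.V)
      (x : Matrix ι κ (LPA K G)) (y : Matrix κ ι (LPA K G)),
      x * y = Est K hG α ∧ y * x = Est K hG β ∧ cnt β = cnt α ᵥ* (G.adj ^ m) ∧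
      (∀ i p, x i p ∈ Zs (ck K hG) K m) ∧ (∀ p i, y p i ∈ Ws (ck K hG) K m) := by
  induction m with
  | zero =>
    intro ι _ _ α
    refine ⟨ι, inferInstance, inferInstance, α, Est K hG α, Est K hG α, Est_idem K hG α,
      Est_idem K hG α, by simp, ?_, ?_⟩
    · intro i p
      by_cases h : i = p
      · subst h
        rw [Est, Matrix.diagonal_apply_eq]
        refine Submodule.subset_span ⟨((), α i), ?_⟩
        change (1 : LPA K G) * (ck K hG).q (α i) = _
        rw [one_mul]
      · rw [Est, Matrix.diagonal_apply_ne _ h]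
        exact Submodule.zero_mem _
    · intro i p
      by_cases h : i = p
      · subst h
        rw [Est, Matrix.diagonal_apply_eq]
        refine Submodule.subset_span ⟨((), α i), ?_⟩
        change (ck K hG).q (α i) * (1 : LPA K G) = _
        rw [mul_one]
      · rw [Est, Matrix.diagonal_apply_ne _ h]
        exact Submodule.zero_mem _
  | succ m ih =>
    intro ι _ _ α
    obtain ⟨κ, i1, i2, β, x1, y1, hxy, hyx, hc, hx, hy⟩ :=
      ih (fun p : {p : ι × G.E // G.s p.2 = α p.1} => G.r p.1.2)
    obtain ⟨h1, h2⟩ := Est_succ K hG α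
    generalize hx0 : (Matrix.of fun (i : ι) (p : {p : ι × G.E // G.s p.2 = α p.1}) =>
        if i = p.1.1 then (ck K hG).z p.1.2 else 0) = x0 at h1 h2
    generalize hy0 : (Matrix.of fun (p : {p : ι × G.E // G.s p.2 = α p.1}) (i : ι) =>
        if i = p.1.1 then (ck K hG).w p.1.2 else 0) = y0 at h1 h2
    refine ⟨κ, i1, i2, β, x0 * x1, y1 * y0, ?_, ?_, ?_, ?_, ?_⟩
    · calc x0 * x1 * (y1 * y0) = x0 * (x1 * y1) * y0 := by simp only [Matrix.mul_assoc]
        _ = x0 * (y0 * x0) * y0 := by rw [hxy, h2]
        _ = (x0 * y0) * (x0 * y0) := by simp only [Matrix.mul_assoc]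
        _ = Est K hG α := by rw [h1, Est_idem]
    · calc y1 * y0 * (x0 * x1) = y1 * (y0 * x0) * x1 := by simp only [Matrix.mul_assoc]
        _ = y1 * (x1 * y1) * x1 := by rw [hxy, h2]
        _ = (y1 * x1) * (y1 * x1) := by simp only [Matrix.mul_assoc]
        _ = Est K hG β := by rw [hyx, Est_idem]
    · rw [hc, cnt_succ, Matrix.vecMul_vecMul, pow_succ']
    · intro i p
      rw [Matrix.mul_apply]
      refine Submodule.sum_mem _ fun c _ => ?_
      rw [← hx0, Matrix.of_apply]
      split_ifs
      · exact z_mul_Zs _ K m _ _ (hx c p)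
      · rw [zero_mul]
        exact Submodule.zero_mem _
    · intro p i
      rw [Matrix.mul_apply]
      refine Submodule.sum_mem _ fun c _ => ?_
      rw [← hy0, Matrix.of_apply]
      split_ifs
      · exact Ws_mul_w _ K m _ _ (hy p c)
      · rw [mul_zero]
        exact Submodule.zero_mem _

/-- Equivalent standard idempotents of the same degree have eventually the same multiplicities. -/
theorem cnt_of_MvN {ι κ : Type} [Fintype ι] [DecidableEq ι] [Fintype κ] [DecidableEq κ]
    (α : ι → G.V) (β : κ → G.V) (k : ℤ)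
    (h : MvN (grading K G) (fun _ : ι => k) (Est K hG α) (fun _ : κ => k) (Est K hG β)) :
    ∃ j, cnt α ᵥ* (G.adj ^ j) = cnt β ᵥ* (G.adj ^ j) := by
  obtain ⟨x, y, hx, hy, hxy, hyx⟩ := h
  have h1 : ∀ i p, ∃ j, x i p ∈ (ck K hG).levS K j := by
    intro i p
    apply exists_lev_of_mem
    have := hx i p
    rw [sub_self] at this
    exact this
  have h2 : ∀ p i, ∃ j, y p i ∈ (ck K hG).levS K j := by
    intro i p
    apply exists_lev_of_mem
    have := hy i p
    rw [sub_self] at this
    exact this
  choose j1 hj1 using h1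
  choose j2 hj2 using h2
  let J : ℕ := (Finset.univ.sup fun p : ι × κ => j1 p.1 p.2) ⊔
    (Finset.univ.sup fun p : κ × ι => j2 p.1 p.2)
  have g1 : ∀ i p, x i p ∈ (ck K hG).levS K J := fun i p =>
    (ck K hG).levS_mono K (le_trans (Finset.le_sup (f := fun p : ι × κ => j1 p.1 p.2)
      (Finset.mem_univ (i, p))) le_sup_left) (hj1 i p)
  have g2 : ∀ p i, y p i ∈ (ck K hG).levS K J := fun p i =>
    (ck K hG).levS_mono K (le_trans (Finset.le_sup (f := fun p : κ × ι => j2 p.1 p.2)
      (Finset.mem_univ (p, i))) le_sup_right) (hj2 p i)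
  refine ⟨J, ?_⟩
  obtain ⟨κ₁, i1, i2, α', xa, ya, a1, a2, ca, ha, ha'⟩ := raise' K hG J α
  obtain ⟨κ₂, i3, i4, β', xb, yb, b1, b2, cb, hb, hb'⟩ := raise' K hG J β
  rw [← ca, ← cb]
  let X := ya * x * xb
  let Y := yb * y * xa
  have iA := Est_idem K hG α
  have iB := Est_idem K hG β
  have hXY : X * Y = Est K hG α' := by
    calc ya * x * xb * (yb * y * xa) = ya * x * (xb * yb) * y * xa := by
          simp only [Matrix.mul_assoc]
      _ = ya * x * (y * x) * y * xa := by rw [b1, hyx]
      _ = ya * ((x * y) * (x * y)) * xa := by simp only [Matrix.mul_assoc]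
      _ = ya * (xa * ya) * xa := by rw [hxy, iA, a1]
      _ = (ya * xa) * (ya * xa) := by simp only [Matrix.mul_assoc]
      _ = Est K hG α' := by rw [a2, Est_idem]
  have hYX : Y * X = Est K hG β' := by
    calc yb * y * xa * (ya * x * xb) = yb * y * (xa * ya) * x * xb := by
          simp only [Matrix.mul_assoc]
      _ = yb * y * (x * y) * x * xb := by rw [a1, hxy]
      _ = yb * ((y * x) * (y * x)) * xb := by simp only [Matrix.mul_assoc]
      _ = yb * (xb * yb) * xb := by rw [hyx, iB, b1]
      _ = (yb * xb) * (yb * xb) := by simp only [Matrix.mul_assoc]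
      _ = Est K hG β' := by rw [b2, Est_idem]
  have lX : ∀ p q, X p q ∈ (ck K hG).levS K 0 := by
    intro p q
    change (ya * x * xb) p q ∈ _
    rw [Matrix.mul_apply]
    refine Submodule.sum_mem _ fun c _ => ?_
    rw [Matrix.mul_apply, Finset.sum_mul]
    refine Submodule.sum_mem _ fun i _ => ?_
    exact Ws_lev_Zs _ K J _ _ _ (ha' p i) (g1 i c) (hb c q)
  have lY : ∀ p q, Y p q ∈ (ck K hG).levS K 0 := by
    intro p q
    change (yb * y * xa) p q ∈ _
    rw [Matrix.mul_apply]
    refine Submodule.sum_mem _ fun c _ => ?_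
    rw [Matrix.mul_apply, Finset.sum_mul]
    refine Submodule.sum_mem _ fun i _ => ?_
    exact Ws_lev_Zs _ K J _ _ _ (hb' p i) (g2 i c) (ha c q)
  have hX := fun p q => (ck K hG).qlin_surj K _ (lX p q)
  have hY := fun p q => (ck K hG).qlin_surj K _ (lY p q)
  choose c hc using hX
  choose c' hc' using hY
  have inj := (ck K hG).qlin_injective K (q_ne_zero K hG)
  have est : ∀ {ν : Type} [DecidableEq ν] (γ : ν → G.V) (p q : ν), Est K hG γ p q =
      (ck K hG).qlin K (if p = q then Pi.single (γ p) 1 else 0) := by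
    intro ν _ γ p q
    by_cases h : p = q
    · subst h
      rw [Est, Matrix.diagonal_apply_eq, if_pos rfl, CKF.qlin_single]
    · rw [Est, Matrix.diagonal_apply_ne _ h, if_neg h, map_zero]
  have hcc : ∀ p q, ∑ l, c p l * c' l q = if p = q then Pi.single (α' p) 1 else 0 := by
    intro p q
    apply inj
    rw [← est, ← hXY, Matrix.mul_apply, map_sum]
    refine Finset.sum_congr rfl fun l _ => ?_
    rw [map_mul, hc, hc']
  have hcc' : ∀ p q, ∑ l, c' p l * c l q = if p = q then Pi.single (β' p) 1 else 0 := by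
    intro p q
    apply inj
    rw [← est, ← hYX, Matrix.mul_apply, map_sum]
    refine Finset.sum_congr rfl fun l _ => ?_
    rw [map_mul, hc, hc']
  have rk : ∀ {ν : Type} [Fintype ν] [DecidableEq ν] (γ : ν → G.V) (v : G.V),
      (Matrix.diagonal fun p => (Pi.single (γ p) 1 : G.V → K) v).rank = cnt γ v := by
    intro ν _ _ γ v
    classical
    rw [Matrix.rank_diagonal, Fintype.card_subtype]
    unfold cnt
    congr 1
    ext p
    rw [Finset.mem_filter, Finset.mem_filter, Pi.single_apply]
    by_cases h : v = γ p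
    · rw [if_pos h]
      exact ⟨fun _ => ⟨Finset.mem_univ _, h.symm⟩, fun _ => ⟨Finset.mem_univ _, one_ne_zero⟩⟩
    · rw [if_neg h]
      exact ⟨fun h' => absurd rfl h'.2, fun h' => absurd h'.2.symm h⟩
  funext v
  have mXY : (Matrix.of fun p q => c p q v) * (Matrix.of fun p q => c' p q v) =
      Matrix.diagonal fun p => (Pi.single (α' p) 1 : G.V → K) v := by
    ext p q
    have h3 := congrFun (hcc p q) v
    rw [Finset.sum_apply] at h3
    rw [Matrix.mul_apply, Matrix.diagonal_apply]
    refine h3.trans ?_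
    split_ifs <;> rfl
  have mYX : (Matrix.of fun p q => c' p q v) * (Matrix.of fun p q => c p q v) =
      Matrix.diagonal fun p => (Pi.single (β' p) 1 : G.V → K) v := by
    ext p q
    have h3 := congrFun (hcc' p q) v
    rw [Finset.sum_apply] at h3
    rw [Matrix.mul_apply, Matrix.diagonal_apply]
    refine h3.trans ?_
    split_ifs <;> rfl
  have did : ∀ {ν : Type} [Fintype ν] [DecidableEq ν] (γ : ν → G.V),
      (Matrix.diagonal fun p => (Pi.single (γ p) 1 : G.V → K) v) *
        (Matrix.diagonal fun p => (Pi.single (γ p) 1 : G.V → K) v) =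
      Matrix.diagonal fun p => (Pi.single (γ p) 1 : G.V → K) v := by
    intro ν _ _ γ
    rw [Matrix.diagonal_mul_diagonal]
    congr 1
    funext p
    rw [Pi.single_apply]
    split_ifs <;> simp
  have h5 := rank_swap (Matrix.of fun p q => c p q v) (Matrix.of fun p q => c' p q v)
    (by rw [mXY]; exact did α') (by rw [mYX]; exact did β')
  rw [mXY, mYX, rk, rk] at h5
  exact h5

end

end Pool.Agent.KS6_48.LC
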