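import Pool.Agent.KS6_48.LC.RK4
import Pool.Graph.R_seed8.Y83.Ex3
import Pool.Graph.R_seed8.Y83.Ex2

set_option linter.unusedSectionVars false
set_option linter.unusedVariables false

/-!
# The class homomorphism and the pointed isomorphism over an arbitrary field
-/

namespace Pool.Agent.KS6_48.LC

open Matrix Pool.Agent.Y83 Pool.Agent.Y83.LPA

noncomputable section

section

variable (K : Type) [Field K] {G : FGraph} (hG : G.NoSinks)
variable {d : ℕ} (S : Pres G d)

theorem val_eq_of_MvN {ι κ : Type} [Fintype ι] [DecidableEq ι] [Fintype κ]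
    [DecidableEq κ] (α : ι → G.V) (β : κ → G.V) (k k' : ℤ)
    (h : MvN (grading K G) (fun _ : ι => k) (Est K hG α) (fun _ : κ => k') (Est K hG β)) :
    S.val α k = S.val β k' := by
  obtain ⟨a, b, hab⟩ : ∃ a b : ℕ, k - a = k' - b := by
    rcases le_total k k' with h | h
    · exact ⟨0, (k' - k).toNat, by rw [Int.toNat_of_nonneg (by omega)]; simp⟩
    · exact ⟨(k - k').toNat, 0, by rw [Int.toNat_of_nonneg (by omega)]; simp⟩
  obtain ⟨ι', _, _, α', m1, c1⟩ := raise K hG a α k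
  obtain ⟨κ', _, _, β', m2, c2⟩ := raise K hG b β k'
  have m3 := (m1.symm.trans (Est_idem K hG _) (Est_idem K hG _) (Est_idem K hG _) h).trans
    (Est_idem K hG _) (Est_idem K hG _) (Est_idem K hG _) m2
  rw [hab] at m3
  obtain ⟨j, hj⟩ := cnt_of_MvN K hG α' β' (k' - b) m3
  have h1 := congrArg S.sm hj
  rw [c1, c2, Pres.sm_adj_pow, Pres.sm_adj_pow, Pres.sm_adj_pow, Pres.sm_adj_pow] at h1
  have h2 := vecMul_unit_cancel _ h1
  unfold Pres.val
  have e1 : S.C ^ k = S.C ^ a * S.C ^ (k - a) := by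
    rw [← zpow_natCast, ← _root_.zpow_add]; congr 1; ring
  have e2 : S.C ^ k' = S.C ^ b * S.C ^ (k - a) := by
    rw [← zpow_natCast, ← _root_.zpow_add]; congr 1; rw [hab]; ring
  rw [e1, e2, Units.val_mul, Units.val_mul, ← Matrix.vecMul_vecMul, ← Matrix.vecMul_vecMul, h2]

/-- The value of a module is determined. -/
def HasVal (P : GrMod (grading K G)) (x : Fin d → ℤ) : Prop :=
  ∃ (κ : Type) (_ : Fintype κ) (_ : DecidableEq κ) (β : κ → G.V) (k : ℤ),
    P.Iso (Std K hG β k) ∧ x = S.val β k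

theorem HasVal.unique {P Q : GrMod (grading K G)} {x y : Fin d → ℤ} (h : HasVal K hG S P x)
    (h' : HasVal K hG S Q y) (hPQ : P.Iso Q) : x = y := by
  obtain ⟨κ, _, _, β, k, h1, rfl⟩ := h
  obtain ⟨κ', _, _, β', k', h1', rfl⟩ := h'
  exact val_eq_of_MvN K hG S β β' k k'
    ((Std_iso_iff K hG β β' k k').mp ((h1.symm.trans hPQ).trans h1'))

theorem HasVal.iso {P Q : GrMod (grading K G)} {x : Fin d → ℤ} (h : HasVal K hG S P x)
    (h' : HasVal K hG S Q x) : P.Iso Q := by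
  obtain ⟨κ, _, _, β, k, h1, h2⟩ := h
  obtain ⟨κ', _, _, β', k', h1', h2'⟩ := h'
  exact (h1.trans ((Std_iso_iff K hG β β' k k').mpr
    (MvN_of_val_eq K hG S β β' k k' (h2.symm.trans h2')))).trans h1'.symm

theorem HasVal.exists {P : GrMod (grading K G)} (hP : P.IsFGProj) :
    ∃ x, HasVal K hG S P x := by
  obtain ⟨κ, _, _, β, k, h⟩ := exists_Std K hG hP
  exact ⟨_, κ, inferInstance, inferInstance, β, k, h, rfl⟩

theorem HasVal.shift {P : GrMod (grading K G)} {x : Fin d → ℤ} (h : HasVal K hG S P x) :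
    HasVal K hG S (P.shift 1) (x ᵥ* S.C.1) := by
  obtain ⟨κ, _, _, β, k, h1, rfl⟩ := h
  refine ⟨κ, inferInstance, inferInstance, β, k + 1, (h1.shift 1).trans (Std_shift K hG β k), ?_⟩
  unfold Pres.val
  rw [Matrix.vecMul_vecMul, ← Units.val_mul, _root_.zpow_add_one]

/-- lowering the degree of the presentation -/
theorem HasVal.lower {P : GrMod (grading K G)} {x : Fin d → ℤ}
    {κ : Type} [Fintype κ] [DecidableEq κ] {β : κ → G.V} {k : ℤ}
    (h1 : P.Iso (Std K hG β k)) (a : ℕ) :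
    ∃ (κ' : Type) (_ : Fintype κ') (_ : DecidableEq κ') (β' : κ' → G.V),
      P.Iso (Std K hG β' (k - a)) ∧ S.val β' (k - a) = S.val β k := by
  obtain ⟨κ', _, _, β', m1, c1⟩ := raise K hG a β k
  refine ⟨κ', inferInstance, inferInstance, β', h1.trans ((Std_iso_iff K hG _ _ _ _).mpr m1), ?_⟩
  exact (val_eq_of_MvN K hG S β β' k (k - a) m1).symm

theorem cnt_sum {V ι κ : Type} [Fintype ι] [Fintype κ] [DecidableEq V] (α : ι → V) (β : κ → V) :
    cnt (Sum.elim α β) = cnt α + cnt β := by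
  funext v
  unfold cnt
  simp only [Pi.add_apply]
  rw [Finset.card_filter, Finset.card_filter, Finset.card_filter, Fintype.sum_sum_type]
  rfl

theorem HasVal.dsum {P Q : GrMod (grading K G)} {x y : Fin d → ℤ} (h : HasVal K hG S P x)
    (h' : HasVal K hG S Q y) : HasVal K hG S (P.dsum Q) (x + y) := by
  obtain ⟨κ, _, _, β, k, h1, rfl⟩ := h
  obtain ⟨κ', _, _, β', k', h1', rfl⟩ := h'
  obtain ⟨a, b, hab⟩ : ∃ a b : ℕ, k - a = k' - b := by
    rcases le_total k k' with h | h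
    · exact ⟨0, (k' - k).toNat, by rw [Int.toNat_of_nonneg (by omega)]; simp⟩
    · exact ⟨(k - k').toNat, 0, by rw [Int.toNat_of_nonneg (by omega)]; simp⟩
  obtain ⟨κ₁, _, _, γ, g1, g2⟩ := HasVal.lower K hG S (x := 0) h1 a
  obtain ⟨κ₂, _, _, γ', g1', g2'⟩ := HasVal.lower K hG S (x := 0) h1' b
  rw [← hab] at g1' g2'
  refine ⟨κ₁ ⊕ κ₂, inferInstance, inferInstance, Sum.elim γ γ', k - a,
    (g1.dsum g1').trans (Std_dsum K hG γ γ' _), ?_⟩
  rw [← g2, ← g2']
  unfold Pres.val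
  rw [cnt_sum, ← Matrix.add_vecMul]
  congr 1
  unfold Pres.sm
  rw [← Finset.sum_add_distrib]
  refine Finset.sum_congr rfl fun v _ => ?_
  rw [Pi.add_apply, add_smul]

theorem HasVal.zero {ι : Type} [IsEmpty ι] [Finite ι] (δ : ι → ℤ) :
    HasVal K hG S (GrMod.free (grading K G) δ) 0 := by
  refine ⟨Empty, inferInstance, inferInstance, fun x => x.elim, 0, ?_, ?_⟩
  · have u1 : Subsingleton (GrMod.free (grading K G) δ).carrier :=
      inferInstanceAs (Subsingleton (ι → LPA K G))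
    have u2 : Subsingleton (Std K hG (fun x : Empty => (x.elim : G.V)) 0).carrier :=
      ⟨fun a b => Subtype.ext (funext fun x => x.elim)⟩
    refine ⟨LinearEquiv.ofSubsingleton _ _, fun i m => ?_⟩
    constructor
    · intro _ j _
      exact j.elim
    · intro _ j _
      exact isEmptyElim j
  · unfold Pres.val Pres.sm cnt
    simp

/-- The class homomorphism. -/
def cl : Vgr (grading K G) →+ (Fin d → ℤ) where
  toFun := Quotient.lift (fun P : FGP (grading K G) => (HasVal.exists K hG S P.2).choose)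
    (fun P Q h => HasVal.unique K hG S (HasVal.exists K hG S P.2).choose_spec
      (HasVal.exists K hG S Q.2).choose_spec h)
  map_zero' := HasVal.unique K hG S (HasVal.exists K hG S (GrMod.IsFGProj.free _)).choose_spec
    (HasVal.zero K hG S (fun x : Empty => x.elim)) (GrMod.Iso.refl _)
  map_add' := by
    rintro ⟨P⟩ ⟨Q⟩
    exact HasVal.unique K hG S (HasVal.exists K hG S (P.2.dsum Q.2)).choose_spec
      ((HasVal.exists K hG S P.2).choose_spec.dsum K hG S (HasVal.exists K hG S Q.2).choose_spec)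
      (GrMod.Iso.refl _)

theorem cl_of_hasVal {P : GrMod (grading K G)} (hP : P.IsFGProj) {x : Fin d → ℤ}
    (h : HasVal K hG S P x) : cl K hG S (Vgr.mk P hP) = x :=
  HasVal.unique K hG S (HasVal.exists K hG S hP).choose_spec h (GrMod.Iso.refl _)

theorem cl_spec {P : GrMod (grading K G)} (hP : P.IsFGProj) :
    HasVal K hG S P (cl K hG S (Vgr.mk P hP)) := (HasVal.exists K hG S hP).choose_spec

theorem cl_injective : Function.Injective (cl K hG S) := by
  rintro ⟨P⟩ ⟨Q⟩ h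
  have h1 := cl_spec K hG S P.2
  have h2 := cl_spec K hG S Q.2
  have h3 : cl K hG S (Vgr.mk P.1 P.2) = cl K hG S (Vgr.mk Q.1 Q.2) := h
  rw [h3] at h1
  exact Quotient.sound (HasVal.iso K hG S h1 h2)

theorem cl_shift (v : Vgr (grading K G)) : cl K hG S (Vgr.shift v) = cl K hG S v ᵥ* S.C.1 := by
  obtain ⟨P⟩ := v
  exact cl_of_hasVal K hG S (P.2.shift 1) ((cl_spec K hG S P.2).shift K hG S)

theorem cl_unit : cl K hG S (Vgr.mk (GrMod.regular (grading K G)) GrMod.IsFGProj.regular) =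
    ∑ v, S.Θ v := by
  apply cl_of_hasVal
  refine ⟨G.V, inferInstance, inferInstance, id, 0, regular_Std K hG, ?_⟩
  unfold Pres.val Pres.sm
  rw [zpow_zero, Units.val_one, Matrix.vecMul_one]
  refine Finset.sum_congr rfl fun v _ => ?_
  have : cnt (id : G.V → G.V) v = 1 := by
    unfold cnt
    simp [Finset.filter_eq']
  rw [this, one_smul]

/-- The image of the class homomorphism. -/
theorem cl_image (x : Fin d → ℤ) : (∃ v, cl K hG S v = x) ↔
    ∃ (n : G.V → ℕ) (k : ℤ), x = S.sm n ᵥ* (S.C ^ k).1 := by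
  constructor
  · rintro ⟨⟨P⟩, rfl⟩
    obtain ⟨κ, _, _, β, k, h1, h2⟩ := cl_spec K hG S P.2
    exact ⟨cnt β, k, h2⟩
  · rintro ⟨n, k, rfl⟩
    refine ⟨Vgr.mk (Std K hG (fun p : Σ v, Fin (n v) => p.1) k) (Std_proj K hG _ k), ?_⟩
    apply cl_of_hasVal
    refine ⟨_, inferInstance, inferInstance, _, k, GrMod.Iso.refl _, ?_⟩
    unfold Pres.val
    congr 2
    funext v
    unfold cnt
    rw [Finset.card_filter, Fintype.sum_sigma, Finset.sum_eq_single v]
    · simp
    · intro u _ hu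
      simp [hu]
    · intro h; exact absurd (Finset.mem_univ _) h

end

theorem pointedK0Iso (K : Type) [Field K] :
    ∃ f : K0gr (LPA.grading K graphE) ≃+ K0gr (LPA.grading K graphF), IsPointedK0Iso f := by
  let φ := cl K graphE_noSinks presE
  let ψ := cl K graphF_noSinks presF
  have h1 : ∀ x, ∃ y, ψ y = nuEquiv (φ x) := by
    intro x
    obtain ⟨n, k, hx⟩ := (cl_image K graphE_noSinks presE (φ x)).mp ⟨x, rfl⟩
    refine (cl_image K graphF_noSinks presF _).mpr ?_
    let m : Fin 4 → ℕ := n ᵥ* M10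
    let n' : Fin 5 → ℕ :=
      m ᵥ* (!![1,0,0,0,0; 0,1,0,0,0; 0,0,1,0,0; 0,0,0,1,0] : Matrix (Fin 4) (Fin 5) ℕ)
    refine ⟨n', k - 10, ?_⟩
    have e1 : n' ᵥ* RF = m := by
      have : (!![1,0,0,0,0; 0,1,0,0,0; 0,0,1,0,0; 0,0,0,1,0] : Matrix (Fin 4) (Fin 5) ℕ) *
          (!![1,0,0,0; 0,1,0,0; 0,0,1,0; 0,0,0,1; 0,0,0,1] : Matrix (Fin 5) (Fin 4) ℕ) = 1 := by
        decide
      change (m ᵥ* (!![1,0,0,0,0; 0,1,0,0,0; 0,0,1,0,0; 0,0,0,1,0] : Matrix (Fin 4) (Fin 5) ℕ)) ᵥ*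
        (!![1,0,0,0; 0,1,0,0; 0,0,1,0; 0,0,0,1; 0,0,0,1] : Matrix (Fin 5) (Fin 4) ℕ) = m
      rw [Matrix.vecMul_vecMul, this, Matrix.vecMul_one]
    have e2 : presF.sm n' = zvec m := (presF_sm n').trans (congrArg zvec e1)
    have e3 : φ x = @zvec (Fin 4) n ᵥ* (CU ^ k).1 :=
      hx.trans (congrArg (fun z => z ᵥ* (CU ^ k).1) (presE_sm n))
    rw [e2]
    change (φ x) ᵥ* nu = zvec m ᵥ* (CU ^ (k - 10)).1
    rw [e3, Matrix.vecMul_vecMul, comm_zpow nu_comm, split_zpow k 10, ← Matrix.mul_assoc, nu_pow,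
      ← Matrix.vecMul_vecMul]
    exact congrArg (fun z => z ᵥ* (CU ^ (k - 10)).1) (zvec_vecMul (V := Fin 4) n M10).symm
  have h2 : ∀ y, ∃ x, φ x = nuEquiv.symm (ψ y) := by
    intro y
    obtain ⟨n, k, hx⟩ := (cl_image K graphF_noSinks presF (ψ y)).mp ⟨y, rfl⟩
    refine (cl_image K graphE_noSinks presE _).mpr ?_
    let m : Fin 4 → ℕ := n ᵥ* RF
    let n' : Fin 4 → ℕ := m ᵥ* M6
    refine ⟨n', k - 6, ?_⟩
    have e2 : presE.sm n' = zvec n' := presE_sm n'
    have e3 : ψ y = zvec m ᵥ* (CU ^ k).1 :=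
      hx.trans (congrArg (fun z => z ᵥ* (CU ^ k).1) (presF_sm n))
    rw [e2]
    change (ψ y) ᵥ* nuinv = zvec n' ᵥ* (CU ^ (k - 6)).1
    rw [e3, Matrix.vecMul_vecMul, comm_zpow nuinv_comm, split_zpow k 6, ← Matrix.mul_assoc, nuinv_pow,
      ← Matrix.vecMul_vecMul, ← zvec_vecMul]
    rfl
  obtain ⟨F, hF⟩ := exists_addEquiv φ ψ (cl_injective K graphE_noSinks presE)
    (cl_injective K graphF_noSinks presF) nuEquiv h1 h2
  refine exists_pointedK0Iso F ?_ ?_
  · intro v
    apply cl_injective K graphF_noSinks presF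
    change ψ (F (Vgr.shift v)) = ψ (Vgr.shift (F v))
    rw [hF]
    change (φ (Vgr.shift v)) ᵥ* nu = _
    have s1 : φ (Vgr.shift v) = φ v ᵥ* CZ := cl_shift K graphE_noSinks presE v
    have s2 : ψ (Vgr.shift (F v)) = ψ (F v) ᵥ* CZ := cl_shift K graphF_noSinks presF (F v)
    rw [s1, s2, hF]
    change _ = ((φ v) ᵥ* nu) ᵥ* CZ
    rw [Matrix.vecMul_vecMul, Matrix.vecMul_vecMul, nu_comm]
  · apply cl_injective K graphF_noSinks presF
    change ψ (F _) = ψ _
    rw [hF]
    have s1 : φ (Vgr.mk (GrMod.regular (LPA.grading K graphE)) GrMod.IsFGProj.regular) =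
        ∑ v, presE.Θ v := cl_unit K graphE_noSinks presE
    have s2 : ψ (Vgr.mk (GrMod.regular (LPA.grading K graphF)) GrMod.IsFGProj.regular) =
        ∑ v, presF.Θ v := cl_unit K graphF_noSinks presF
    rw [s1, s2]
    have e1 : ∑ v, presE.Θ v = (![1, 1, 1, 1] : Fin 4 → ℤ) := by
      change ∑ v : Fin 4, zvec ((1 : Matrix (Fin 4) (Fin 4) ℕ) v) = _
      decide
    have e2 : ∑ v, presF.Θ v = (![1, 1, 1, 2] : Fin 4 → ℤ) := by
      change ∑ v : Fin 5, zvec ((!![1,0,0,0; 0,1,0,0; 0,0,1,0; 0,0,0,1; 0,0,0,1] :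
        Matrix (Fin 5) (Fin 4) ℕ) v) = _
      decide
    rw [e1, e2]
    change (![1, 1, 1, 1] : Fin 4 → ℤ) ᵥ* nu = _
    decide


/-- The Leavitt path algebras of the two graphs are not graded isomorphic over any
algebraically closed field. -/
theorem not_gradedIso_closed (K : Type) [Field K] [IsAlgClosed K] :
    ¬ GradedIso K graphE graphF := by
  intro h
  have h1 := sse_of_gradedIso K graphE_noSinks graphF_noSinks h
    (Equiv.refl (Fin 4)) (Equiv.refl (Fin 5))
  rw [graphE_wm, graphF_wm] at h1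
  exact not_sse h1

/-- The Leavitt path algebras of the two graphs are not graded isomorphic over any field. -/
theorem not_gradedIso (K : Type) [Field K] : ¬ GradedIso K graphE graphF :=
  fun h => not_gradedIso_closed (AlgebraicClosure K) (h.baseChange (AlgebraicClosure K))

end

end Pool.Agent.KS6_48.LC
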