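import Pool.Agent.KS6_48.LC.RK5

set_option linter.unusedSectionVars false
set_option linter.unusedVariables false

/-!
# A pair of strongly connected aperiodic graphs
-/

namespace Pool.Agent.KS6_48.LC

open Matrix Module Pool.Agent.Y83 Pool.Agent.Y83.LPA

noncomputable section

/-- The graph with vertices `0, ..., 7` and edges `0 → 1`, `1 → 4`, `2 → 5`, `3 → 5`, `4 → 6`,
`5 → 7`, `6 → 0`, `6 → 2`, `7 → 0`, `7 → 3`. -/
def graphH : FGraph where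
  V := Fin 8
  E := Fin 10
  s := ![0, 1, 2, 3, 4, 5, 6, 6, 7, 7]
  r := ![1, 4, 5, 5, 6, 7, 0, 2, 0, 3]

theorem graphH_noSinks : graphH.NoSinks := by
  change ∀ v : Fin 8, ∃ e : Fin 10, (![0, 1, 2, 3, 4, 5, 6, 6, 7, 7] : Fin 10 → Fin 8) e = v
  decide

/-- The adjacency matrix. -/
def CH : Matrix (Fin 8) (Fin 8) ℕ :=
  !![0,1,0,0,0,0,0,0; 0,0,0,0,1,0,0,0; 0,0,0,0,0,1,0,0; 0,0,0,0,0,1,0,0; 0,0,0,0,0,0,1,0;
    0,0,0,0,0,0,0,1; 1,0,1,0,0,0,0,0; 1,0,0,1,0,0,0,0]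

theorem adjH_aux : (Matrix.of fun a b : Fin 8 => (Finset.univ.filter fun e : Fin 10 =>
      (![0, 1, 2, 3, 4, 5, 6, 6, 7, 7] : Fin 10 → Fin 8) e = a ∧
      (![1, 4, 5, 5, 6, 7, 0, 2, 0, 3] : Fin 10 → Fin 8) e = b).card) = CH := by
  decide

theorem adjH : graphH.adj = CH := adjH_aux

theorem CH4 : CH * CH * (CH * CH) = CH ^ 4 := by
  simp only [pow_succ, pow_zero, Matrix.one_mul, Matrix.mul_assoc]

theorem graphH_wm : graphH.wm (Equiv.refl (Fin 8)) = ⟨8, CH, fun _ => 1⟩ := by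
  have := adjH_aux
  unfold FGraph.wm
  rw [← this]
  rfl

/-- The multiplier. -/
def mu : Matrix (Fin 4) (Fin 4) ℤ := !![-1,1,0,1; 1,0,1,0; 0,1,0,1; 1,1,1,0]

/-- The inverse of the multiplier. -/
def muinv : Matrix (Fin 4) (Fin 4) ℤ := !![-1,0,1,0; 0,-1,0,1; 1,1,-1,0; 0,1,1,-1]

theorem mu_inv : mu * muinv = 1 := by decide

theorem muinv_mu : muinv * mu = 1 := by decide

theorem sgc_mu : sgc mu (muinv * CZ) = 1 := by
  have : muinv * CZ = !![0,-1,0,1; 1,1,-1,0; 0,1,1,-1; -1,-1,1,1] := by decide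
  rw [this]
  decide +kernel

theorem mu_unique (U : Matrix (Fin 4) (Fin 4) ℤ) (hU : U * CZ = CZ * U)
    (h : zv (fun _ => 1) ᵥ* U = zv ![1,3,2,2]) : U = mu := by
  let K : Matrix (Fin 4) (Fin 4) ℤ := !![1,1,1,1; 1,2,1,1; 1,2,2,1; 1,2,2,2]
  let K' : Matrix (Fin 4) (Fin 4) ℤ := !![2,0,0,-1; -1,1,0,0; 0,-1,1,0; 0,0,-1,1]
  let L : Matrix (Fin 4) (Fin 4) ℤ := !![1,3,2,2; 2,3,3,2; 2,4,3,3; 3,5,4,3]
  have hK : K' * K = 1 := by decide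
  have hrow : ∀ k : ℕ, (zv (fun _ => 1) ᵥ* (CZ ^ k)) ᵥ* U = zv ![1,3,2,2] ᵥ* (CZ ^ k) := by
    intro k
    have hc : CZ ^ k * U = U * CZ ^ k := by
      have : Commute CZ U := hU.symm
      exact (this.pow_left k)
    rw [Matrix.vecMul_vecMul, hc, ← Matrix.vecMul_vecMul, h]
  have h0 := hrow 0
  have h1 := hrow 1
  have h2 := hrow 2
  have h3 := hrow 3
  have hKU : K * U = L := by
    funext i
    have key : (K * U) i = K i ᵥ* U := rfl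
    rw [key]
    fin_cases i
    · have a : zv (fun _ => 1) ᵥ* (CZ ^ 0) = K 0 := by decide
      have b : zv ![1,3,2,2] ᵥ* (CZ ^ 0) = L 0 := by decide
      rw [a, b] at h0; exact h0
    · have a : zv (fun _ => 1) ᵥ* (CZ ^ 1) = K 1 := by decide
      have b : zv ![1,3,2,2] ᵥ* (CZ ^ 1) = L 1 := by decide
      rw [a, b] at h1; exact h1
    · have a : zv (fun _ => 1) ᵥ* (CZ ^ 2) = K 2 := by decide
      have b : zv ![1,3,2,2] ᵥ* (CZ ^ 2) = L 2 := by decide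
      rw [a, b] at h2; exact h2
    · have a : zv (fun _ => 1) ᵥ* (CZ ^ 3) = K 3 := by decide
      have b : zv ![1,3,2,2] ᵥ* (CZ ^ 3) = L 3 := by decide
      rw [a, b] at h3; exact h3
  calc U = (K' * K) * U := by rw [hK, Matrix.one_mul]
    _ = K' * L := by rw [Matrix.mul_assoc, hKU]
    _ = mu := by decide

/-- The chain of amalgamations from the graph `H` to the weighted graph `E`. -/
theorem steps : Relation.EqvGen WM.Step ⟨8, CH, fun _ => 1⟩ ⟨4, CE, ![1,3,2,2]⟩ := by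
  have s1 : WM.Step ⟨8, CH, fun _ => 1⟩
      ⟨7, !![0,1,0,0,0,0,0; 0,0,0,1,0,0,0; 0,0,0,0,1,0,0; 0,0,0,0,0,1,0; 0,0,0,0,0,0,1;
        1,0,1,0,0,0,0; 1,0,1,0,0,0,0], ![1,1,2,1,1,1,1]⟩ := by
    refine ⟨!![1,0,0,0,0,0,0; 0,1,0,0,0,0,0; 0,0,1,0,0,0,0; 0,0,1,0,0,0,0; 0,0,0,1,0,0,0;
        0,0,0,0,1,0,0; 0,0,0,0,0,1,0; 0,0,0,0,0,0,1],
      !![0,1,0,0,0,0,0,0; 0,0,0,0,1,0,0,0; 0,0,0,0,0,1,0,0; 0,0,0,0,0,0,1,0; 0,0,0,0,0,0,0,1;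
        1,0,1,0,0,0,0,0; 1,0,0,1,0,0,0,0], ?_, ?_, ?_⟩ <;> decide
  have s2 : WM.Step ⟨7, !![0,1,0,0,0,0,0; 0,0,0,1,0,0,0; 0,0,0,0,1,0,0; 0,0,0,0,0,1,0;
        0,0,0,0,0,0,1; 1,0,1,0,0,0,0; 1,0,1,0,0,0,0], ![1,1,2,1,1,1,1]⟩
      ⟨6, !![0,1,0,0,0,0; 0,0,0,1,0,0; 0,0,0,0,1,0; 0,0,0,0,0,1; 0,0,0,0,0,1;
        1,0,1,0,0,0], ![1,1,2,1,1,2]⟩ := by
    refine ⟨!![1,0,0,0,0,0; 0,1,0,0,0,0; 0,0,1,0,0,0; 0,0,0,1,0,0; 0,0,0,0,1,0;
        0,0,0,0,0,1; 0,0,0,0,0,1],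
      !![0,1,0,0,0,0,0; 0,0,0,1,0,0,0; 0,0,0,0,1,0,0; 0,0,0,0,0,1,0; 0,0,0,0,0,0,1;
        1,0,1,0,0,0,0], ?_, ?_, ?_⟩ <;> decide
  have s3 : WM.Step ⟨6, !![0,1,0,0,0,0; 0,0,0,1,0,0; 0,0,0,0,1,0; 0,0,0,0,0,1; 0,0,0,0,0,1;
        1,0,1,0,0,0], ![1,1,2,1,1,2]⟩
      ⟨5, !![0,1,0,0,0; 0,0,0,1,0; 0,0,0,1,0; 0,0,0,0,1; 1,0,1,0,0], ![1,1,2,2,2]⟩ := by
    refine ⟨!![1,0,0,0,0; 0,1,0,0,0; 0,0,1,0,0; 0,0,0,1,0; 0,0,0,1,0; 0,0,0,0,1],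
      !![0,1,0,0,0,0; 0,0,0,1,0,0; 0,0,0,0,1,0; 0,0,0,0,0,1; 1,0,1,0,0,0], ?_, ?_, ?_⟩ <;> decide
  have s4 : WM.Step ⟨5, !![0,1,0,0,0; 0,0,0,1,0; 0,0,0,1,0; 0,0,0,0,1; 1,0,1,0,0],
        ![1,1,2,2,2]⟩ ⟨4, CE, ![1,3,2,2]⟩ := by
    refine ⟨!![1,0,0,0; 0,1,0,0; 0,1,0,0; 0,0,1,0; 0,0,0,1],
      !![0,1,0,0,0; 0,0,0,1,0; 0,0,0,0,1; 1,0,1,0,0], ?_, ?_, ?_⟩ <;> decide
  exact (((Relation.EqvGen.rel _ _ s1).trans _ _ _ (Relation.EqvGen.rel _ _ s2)).trans _ _ _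
    (Relation.EqvGen.rel _ _ s3)).trans _ _ _ (Relation.EqvGen.rel _ _ s4)

/-- The two weighted matrices are not strong shift equivalent. -/
theorem not_sseH : ¬ Relation.EqvGen WM.Step ⟨4, CE, fun _ => 1⟩ ⟨8, CH, fun _ => 1⟩ := by
  intro h
  have h2 : Relation.EqvGen WM.Step ⟨4, CE, fun _ => 1⟩ ⟨4, CE, ![1,3,2,2]⟩ :=
    h.trans _ _ _ steps
  obtain ⟨U, U', hU, hU', hc, hu, hs⟩ := sse_invariant CE (fun _ => 1) CE ![1,3,2,2] CZinv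
    (by rw [zm_CE, CZ_inv]) (by rw [zm_CE, CZ_inv']) CZinv
    (by rw [zm_CE, CZ_inv]) (by rw [zm_CE, CZ_inv']) (by decide) (by decide) h2
  rw [zm_CE] at hc hs
  have e : U = mu := mu_unique U hc hu
  subst e
  have e' : U' = muinv := by
    calc U' = U' * (mu * muinv) := by rw [mu_inv, Matrix.mul_one]
      _ = muinv := by rw [← Matrix.mul_assoc, hU', Matrix.one_mul]
  rw [e', sgc_mu] at hs
  exact absurd hs (by decide)

def RH : Matrix graphH.V (Fin 4) ℕ :=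
  (!![1,0,0,0; 0,1,0,0; 0,1,0,0; 0,1,0,0; 0,0,1,0; 0,0,1,0; 0,0,0,1; 0,0,0,1] :
    Matrix (Fin 8) (Fin 4) ℕ)
def SH : Matrix (Fin 4) graphH.V ℕ :=
  (!![1,0,1,0,0,0,0,0; 0,1,0,0,0,1,0,0; 0,0,0,0,1,0,0,1; 1,0,0,1,0,0,1,0] :
    Matrix (Fin 4) (Fin 8) ℕ)

def presH : Pres graphH 4 := Pres.ofNat RH SH CE CU CU_val
  (by
    rw [adjH]
    change CH * (!![1,0,0,0; 0,1,0,0; 0,1,0,0; 0,1,0,0; 0,0,1,0; 0,0,1,0; 0,0,0,1; 0,0,0,1] :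
        Matrix (Fin 8) (Fin 4) ℕ) =
      (!![1,0,0,0; 0,1,0,0; 0,1,0,0; 0,1,0,0; 0,0,1,0; 0,0,1,0; 0,0,0,1; 0,0,0,1] :
        Matrix (Fin 8) (Fin 4) ℕ) * CE
    decide +kernel) 4
  (by
    rw [adjH]
    have h : (!![1,0,0,0; 0,1,0,0; 0,1,0,0; 0,1,0,0; 0,0,1,0; 0,0,1,0; 0,0,0,1; 0,0,0,1] :
        Matrix (Fin 8) (Fin 4) ℕ) *
      (!![1,0,1,0,0,0,0,0; 0,1,0,0,0,1,0,0; 0,0,0,0,1,0,0,1; 1,0,0,1,0,0,1,0] :
        Matrix (Fin 4) (Fin 8) ℕ) = CH * CH * (CH * CH) := by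
      decide +kernel
    exact h.trans CH4)

theorem presH_sm (n : Fin 8 → ℕ) : presH.sm n = zvec (n ᵥ* RH) :=
  Pres.ofNat_sm RH SH CE CU CU_val _ 4 _ n

/-- The automorphism given by the multiplier. -/
def muEquiv : (Fin 4 → ℤ) ≃+ (Fin 4 → ℤ) where
  toFun x := x ᵥ* mu
  invFun x := x ᵥ* muinv
  left_inv x := by
    change (x ᵥ* mu) ᵥ* muinv = x
    rw [Matrix.vecMul_vecMul, mu_inv, Matrix.vecMul_one]
  right_inv x := by
    change (x ᵥ* muinv) ᵥ* mu = x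
    rw [Matrix.vecMul_vecMul, muinv_mu, Matrix.vecMul_one]
  map_add' x y := Matrix.add_vecMul _ _ _

/-- `mu * CZ` -/
def P1 : Matrix (Fin 4) (Fin 4) ℕ := !![1,0,1,0; 0,1,0,1; 1,1,1,0; 0,1,1,1]

/-- `muinv * CZ ^ 15` -/
def P15 : Matrix (Fin 4) (Fin 4) ℕ := !![1,0,1,4; 4,5,0,1; 1,5,5,0; 0,1,5,5]

theorem mu_comm : mu * CZ = CZ * mu := by decide

theorem muinv_comm : muinv * CZ = CZ * muinv := by decide

theorem mu_pow : mu * CZ ^ 1 = zm P1 := by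
  rw [pow_one]
  decide

theorem muinv_pow : muinv * CZ ^ 15 = zm P15 := by
  have h5 : CZ ^ 5 = !![0,1,1,0; 0,0,1,1; 1,1,0,1; 1,2,1,0] := by
    simp only [pow_succ, pow_zero]
    decide
  rw [show (15 : ℕ) = 5 + 5 + 5 by norm_num, pow_add, pow_add, h5]
  decide

theorem pointedK0IsoH (K L : Type) [Field K] [Field L] :
    PointedK0Iso (LPA.grading K graphE) (LPA.grading L graphH) := by
  let φ := cl K graphE_noSinks presE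
  let ψ := cl L graphH_noSinks presH
  have h1 : ∀ x, ∃ y, ψ y = muEquiv (φ x) := by
    intro x
    obtain ⟨n, k, hx⟩ := (cl_image K graphE_noSinks presE (φ x)).mp ⟨x, rfl⟩
    refine (cl_image L graphH_noSinks presH _).mpr ?_
    let m : Fin 4 → ℕ := n ᵥ* P1
    let n' : Fin 8 → ℕ :=
      m ᵥ* (!![1,0,0,0,0,0,0,0; 0,1,0,0,0,0,0,0; 0,0,0,0,1,0,0,0; 0,0,0,0,0,0,1,0] :
        Matrix (Fin 4) (Fin 8) ℕ)
    refine ⟨n', k - 1, ?_⟩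
    have e1 : n' ᵥ* RH = m := by
      have : (!![1,0,0,0,0,0,0,0; 0,1,0,0,0,0,0,0; 0,0,0,0,1,0,0,0; 0,0,0,0,0,0,1,0] :
        Matrix (Fin 4) (Fin 8) ℕ) *
          (!![1,0,0,0; 0,1,0,0; 0,1,0,0; 0,1,0,0; 0,0,1,0; 0,0,1,0; 0,0,0,1; 0,0,0,1] :
        Matrix (Fin 8) (Fin 4) ℕ) = 1 := by
        decide
      change (m ᵥ* (!![1,0,0,0,0,0,0,0; 0,1,0,0,0,0,0,0; 0,0,0,0,1,0,0,0; 0,0,0,0,0,0,1,0] :
        Matrix (Fin 4) (Fin 8) ℕ)) ᵥ*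
        (!![1,0,0,0; 0,1,0,0; 0,1,0,0; 0,1,0,0; 0,0,1,0; 0,0,1,0; 0,0,0,1; 0,0,0,1] :
        Matrix (Fin 8) (Fin 4) ℕ) = m
      rw [Matrix.vecMul_vecMul, this, Matrix.vecMul_one]
    have e2 : presH.sm n' = zvec m := (presH_sm n').trans (congrArg zvec e1)
    have e3 : φ x = @zvec (Fin 4) n ᵥ* (CU ^ k).1 :=
      hx.trans (congrArg (fun z => z ᵥ* (CU ^ k).1) (presE_sm n))
    rw [e2]
    change (φ x) ᵥ* mu = zvec m ᵥ* (CU ^ (k - 1)).1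
    rw [e3, Matrix.vecMul_vecMul, comm_zpow mu_comm, split_zpow k 1, ← Matrix.mul_assoc, mu_pow,
      ← Matrix.vecMul_vecMul]
    exact congrArg (fun z => z ᵥ* (CU ^ (k - 1)).1) (zvec_vecMul (V := Fin 4) n P1).symm
  have h2 : ∀ y, ∃ x, φ x = muEquiv.symm (ψ y) := by
    intro y
    obtain ⟨n, k, hx⟩ := (cl_image L graphH_noSinks presH (ψ y)).mp ⟨y, rfl⟩
    refine (cl_image K graphE_noSinks presE _).mpr ?_
    let m : Fin 4 → ℕ := n ᵥ* RH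
    let n' : Fin 4 → ℕ := m ᵥ* P15
    refine ⟨n', k - 15, ?_⟩
    have e2 : presE.sm n' = zvec n' := presE_sm n'
    have e3 : ψ y = zvec m ᵥ* (CU ^ k).1 :=
      hx.trans (congrArg (fun z => z ᵥ* (CU ^ k).1) (presH_sm n))
    rw [e2]
    change (ψ y) ᵥ* muinv = zvec n' ᵥ* (CU ^ (k - 15)).1
    rw [e3, Matrix.vecMul_vecMul, comm_zpow muinv_comm, split_zpow k 15, ← Matrix.mul_assoc, muinv_pow,
      ← Matrix.vecMul_vecMul, ← zvec_vecMul]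
    rfl
  obtain ⟨F, hF⟩ := exists_addEquiv φ ψ (cl_injective K graphE_noSinks presE)
    (cl_injective L graphH_noSinks presH) muEquiv h1 h2
  refine exists_pointedK0Iso F ?_ ?_
  · intro v
    apply cl_injective L graphH_noSinks presH
    change ψ (F (Vgr.shift v)) = ψ (Vgr.shift (F v))
    rw [hF]
    change (φ (Vgr.shift v)) ᵥ* mu = _
    have s1 : φ (Vgr.shift v) = φ v ᵥ* CZ := cl_shift K graphE_noSinks presE v
    have s2 : ψ (Vgr.shift (F v)) = ψ (F v) ᵥ* CZ := cl_shift L graphH_noSinks presH (F v)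
    rw [s1, s2, hF]
    change _ = ((φ v) ᵥ* mu) ᵥ* CZ
    rw [Matrix.vecMul_vecMul, Matrix.vecMul_vecMul, mu_comm]
  · apply cl_injective L graphH_noSinks presH
    change ψ (F _) = ψ _
    rw [hF]
    have s1 : φ (Vgr.mk (GrMod.regular (LPA.grading K graphE)) GrMod.IsFGProj.regular) =
        ∑ v, presE.Θ v := cl_unit K graphE_noSinks presE
    have s2 : ψ (Vgr.mk (GrMod.regular (LPA.grading L graphH)) GrMod.IsFGProj.regular) =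
        ∑ v, presH.Θ v := cl_unit L graphH_noSinks presH
    rw [s1, s2]
    have e1 : ∑ v, presE.Θ v = (![1, 1, 1, 1] : Fin 4 → ℤ) := by
      change ∑ v : Fin 4, zvec ((1 : Matrix (Fin 4) (Fin 4) ℕ) v) = _
      decide
    have e2 : ∑ v, presH.Θ v = (![1, 3, 2, 2] : Fin 4 → ℤ) := by
      change ∑ v : Fin 8, zvec ((!![1,0,0,0; 0,1,0,0; 0,1,0,0; 0,1,0,0; 0,0,1,0; 0,0,1,0; 0,0,0,1; 0,0,0,1] :
        Matrix (Fin 8) (Fin 4) ℕ) v) = _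
      decide
    rw [e1, e2]
    change (![1, 1, 1, 1] : Fin 4 → ℤ) ᵥ* mu = _
    decide


theorem not_gradedIsoH_closed (K : Type) [Field K] [IsAlgClosed K] :
    ¬ GradedIso K graphE graphH := by
  intro h
  have h1 := sse_of_gradedIso K graphE_noSinks graphH_noSinks h
    (Equiv.refl (Fin 4)) (Equiv.refl (Fin 8))
  rw [graphE_wm, graphH_wm] at h1
  exact not_sseH h1

/-- The Leavitt path algebras of the two graphs are not graded isomorphic over any field. -/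
theorem not_gradedIsoH (K : Type) [Field K] : ¬ GradedIso K graphE graphH :=
  fun h => not_gradedIsoH_closed (AlgebraicClosure K) (h.baseChange (AlgebraicClosure K))

/-- The graph `E` is strongly connected and aperiodic. -/
theorem graphE_primitive : ∃ k, ∀ u v, 0 < (graphE.adj ^ k) u v := by
  refine ⟨10, ?_⟩
  rw [adjE]
  have h5 : CE * CE * (CE * CE) * CE = !![0,1,1,0; 0,0,1,1; 1,1,0,1; 1,2,1,0] := by decide
  have h10 : CE ^ 10 = !![0,1,1,0; 0,0,1,1; 1,1,0,1; 1,2,1,0] *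
      !![0,1,1,0; 0,0,1,1; 1,1,0,1; 1,2,1,0] := by
    rw [← h5, show (10 : ℕ) = 5 + 5 by norm_num, pow_add]
    simp only [pow_succ, pow_zero, Matrix.one_mul, Matrix.mul_assoc]
  have : ∀ u v : Fin 4, 0 < (CE ^ 10) u v := by
    rw [h10]
    decide
  exact this

/-- The graph `H` is strongly connected and aperiodic. -/
theorem graphH_primitive : ∃ k, ∀ u v, 0 < (graphH.adj ^ k) u v := by
  refine ⟨14, ?_⟩
  rw [adjH]
  have : ∀ u v : Fin 8, 0 < (CH ^ 14) u v := by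
    decide +kernel
  exact this

end

end Pool.Agent.KS6_48.LC
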