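import Pool.Agent.KS6_48.LC.RK6

set_option linter.unusedSectionVars false
set_option linter.unusedVariables false

/-!
# Graded isomorphisms of rings
-/

namespace Pool.Agent.KS6_48.LC

open Matrix Pool.Agent.Y83 Pool.Agent.Y83.LPA

/-- Graded isomorphism of rings between Leavitt path algebras, possibly over different fields:
a bijective ring homomorphism preserving degrees. -/
def GradedRingIso (K L : Type) [Field K] [Field L] (G H : FGraph) : Prop :=
  ∃ φ : LPA K G ≃+* LPA L H, ∀ (n : ℤ) (x : LPA K G), x ∈ LPA.gr K G n ↔ φ x ∈ LPA.gr L H n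

noncomputable section

section centre

variable (K : Type) [Field K] {G : FGraph} (hG : G.NoSinks)

theorem central_lev (hs : ∀ v, ∃ e, G.r e = v) (x : LPA K G) (hx : ∀ y, x * y = y * x) (j : ℕ) :
    x ∈ (ck K hG).levS K j → x ∈ (ck K hG).levS K 0 := by
  induction j with
  | zero => exact id
  | succ j ih =>
    intro h
    apply ih
    have h1 : ∀ v, x * (ck K hG).q v ∈ (ck K hG).levS K j := by
      intro v
      obtain ⟨e, rfl⟩ := hs v
      have h2 : x * (ck K hG).q (G.r e) = (ck K hG).w e * x * (ck K hG).z e := by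
        have h3 := (ck K hG).ck1 e e
        rw [if_pos rfl] at h3
        rw [← h3, ← mul_assoc, hx ((ck K hG).w e)]
      rw [h2]
      exact (ck K hG).wz_mem K j x h e e
    have h2 : x = ∑ v, x * (ck K hG).q v := by
      rw [← Finset.mul_sum, (ck K hG).one, mul_one]
    rw [h2]
    exact Submodule.sum_mem _ fun v _ => h1 v

theorem const_of_adj {c : G.V → K} (hc : ∀ e, c (G.s e) = c (G.r e)) (m : ℕ) :
    ∀ u v, 0 < (G.adj ^ m) u v → c u = c v := by
  induction m with
  | zero =>
    intro u v h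
    rw [pow_zero, Matrix.one_apply] at h
    by_cases huv : u = v
    · rw [huv]
    · rw [if_neg huv] at h
      exact absurd h (lt_irrefl 0)
  | succ m ih =>
    intro u v h
    rw [pow_succ, Matrix.mul_apply] at h
    obtain ⟨w, -, hw⟩ := Finset.exists_ne_zero_of_sum_ne_zero (ne_of_gt h)
    have h1 : 0 < (G.adj ^ m) u w := Nat.pos_of_ne_zero fun h => hw (by rw [h, zero_mul])
    have h2 : 0 < G.adj w v := Nat.pos_of_ne_zero fun h => hw (by rw [h, mul_zero])
    rw [ih u w h1]
    obtain ⟨e, he⟩ := Finset.card_pos.mp h2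
    rw [Finset.mem_filter] at he
    rw [← he.2.1, ← he.2.2, hc]

include hG in
/-- The central elements of degree zero are the scalars. -/
theorem central_scalar (hs : ∀ v, ∃ e, G.r e = v) (hconn : ∀ u v, ∃ m, 0 < (G.adj ^ m) u v)
    (v₀ : G.V) (x : LPA K G) (hx : ∀ y, x * y = y * x) (h0 : x ∈ gr K G 0) :
    ∃ c : K, x = algebraMap K (LPA K G) c := by
  obtain ⟨j, hj⟩ := exists_lev_of_mem K hG h0
  have hj0 := central_lev K hG hs x hx j hj
  obtain ⟨c, rfl⟩ := (ck K hG).qlin_surj K x hj0
  have h1 : ∀ e, c (G.s e) = c (G.r e) := by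
    intro e
    have a1 : (ck K hG).qlin K c * (ck K hG).z e = c (G.s e) • (ck K hG).z e := by
      conv_lhs => rw [← (ck K hG).sz e, ← mul_assoc, hx, (ck K hG).q_mul_qlin, smul_mul_assoc]
      rw [(ck K hG).sz e]
    have a2 : (ck K hG).z e * (ck K hG).qlin K c = c (G.r e) • (ck K hG).z e := by
      conv_lhs => rw [← (ck K hG).zr e, mul_assoc, (ck K hG).q_mul_qlin, mul_smul_comm]
      rw [(ck K hG).zr e]
    rw [hx] at a1
    have a3 : c (G.s e) • (ck K hG).z e = c (G.r e) • (ck K hG).z e := a1.symm.trans a2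
    have a4 := congrArg (fun y => (ck K hG).w e * y) a3
    simp only [mul_smul_comm] at a4
    rw [(ck K hG).ck1, if_pos rfl] at a4
    have a5 : (c (G.s e) - c (G.r e)) • (ck K hG).q (G.r e) = 0 :=
      (sub_smul (c (G.s e)) (c (G.r e)) ((ck K hG).q (G.r e))).trans (sub_eq_zero.mpr a4)
    rcases smul_eq_zero.mp a5 with h | h
    · exact sub_eq_zero.mp h
    · exact absurd h (q_ne_zero K hG _)
  refine ⟨c v₀, ?_⟩
  have h2 : ∀ v, c v = c v₀ := by
    intro v
    obtain ⟨m, hm⟩ := hconn v v₀
    exact const_of_adj K h1 m v v₀ hm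
  rw [(ck K hG).qlin_apply, Algebra.algebraMap_eq_smul_one, ← (ck K hG).one, Finset.smul_sum]
  exact Finset.sum_congr rfl fun v _ => by rw [h2]

end centre

theorem algebraMap_mem_gr (K : Type) [Field K] {G : FGraph} (c : K) :
    algebraMap K (LPA K G) c ∈ gr K G 0 := by
  rw [Algebra.algebraMap_eq_smul_one]
  exact Submodule.smul_mem _ _ (one_mem_gr K)

/-- For connected graphs, a graded isomorphism of rings gives a graded isomorphism of algebras
over the second field. -/
theorem GradedRingIso.toGradedIso {K L : Type} [Field K] [Field L] {G H : FGraph}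
    (hG : G.NoSinks) (sG : ∀ v, ∃ e, G.r e = v) (cG : ∀ u v, ∃ m, 0 < (G.adj ^ m) u v) (v₀ : G.V)
    (hH : H.NoSinks) (sH : ∀ v, ∃ e, H.r e = v) (cH : ∀ u v, ∃ m, 0 < (H.adj ^ m) u v) (u₀ : H.V)
    (h : GradedRingIso K L G H) : GradedIso L G H := by
  obtain ⟨φ, hφ⟩ := h
  have hφ' : ∀ (n : ℤ) (y : LPA L H), y ∈ gr L H n ↔ φ.symm y ∈ gr K G n := by
    intro n y
    rw [hφ, RingEquiv.apply_symm_apply]
  have a1 : ∀ c : K, ∃ d : L, φ (algebraMap K _ c) = algebraMap L _ d := by
    intro c
    refine central_scalar L hH sH cH u₀ _ (fun y => ?_) ((hφ _ _).mp (algebraMap_mem_gr K c))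
    obtain ⟨x, rfl⟩ := φ.surjective y
    rw [← map_mul, ← map_mul, Algebra.commutes]
  have a2 : ∀ d : L, ∃ c : K, φ.symm (algebraMap L _ d) = algebraMap K _ c := by
    intro d
    refine central_scalar K hG sG cG v₀ _ (fun y => ?_) ((hφ' _ _).mp (algebraMap_mem_gr L d))
    obtain ⟨x, rfl⟩ := φ.symm.surjective y
    rw [← map_mul, ← map_mul, Algebra.commutes]
  choose s hs using a1
  choose t ht using a2
  have nL : Nontrivial (LPA L H) := ⟨⟨_, _, q_ne_zero L hH u₀⟩⟩
  have inj : Function.Injective (algebraMap L (LPA L H)) := (algebraMap L (LPA L H)).injective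
  let σ : K →+* L :=
    { toFun := s
      map_one' := inj (by rw [← hs, map_one, map_one, map_one])
      map_mul' := fun a b => inj (by rw [← hs, map_mul, map_mul, map_mul, hs, hs])
      map_zero' := inj (by rw [← hs, map_zero, map_zero, map_zero])
      map_add' := fun a b => inj (by rw [← hs, map_add, map_add, map_add, hs, hs]) }
  let _ : Algebra K L := σ.toAlgebra
  have st : ∀ d, algebraMap K L (t d) = d := by
    intro d
    apply inj
    change algebraMap L (LPA L H) (s (t d)) = _
    rw [← hs, ← ht, RingEquiv.apply_symm_apply]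
  let φ' : LPA K G →ₐ[K] LPA L H :=
    { (φ : LPA K G →+* LPA L H) with
      commutes' := fun c => by
        rw [IsScalarTower.algebraMap_apply K L (LPA L H)]
        exact hs c }
  let ψ : LPA L G →ₐ[L] LPA L H := lift L ((fam K G).map (φ : LPA K G →+* LPA L H))
  have ψ_gen : ∀ g, ψ (gen L g) = φ (gen K g) := by
    intro g
    change lift L ((fam K G).map (φ : LPA K G →+* LPA L H)) (gen L g) = _
    rw [lift_gen, LFam.map_val, fam_val]
    rfl
  have claim1 : ∀ x, ψ (bc K L G x) = φ x := by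
    have h1 : (ψ.restrictScalars K).comp (bc K L G) = φ' := by
      apply algHom_ext
      intro g
      change ψ (bc K L G (gen K g)) = φ (gen K g)
      rw [bc_gen, ψ_gen]
    intro x
    exact DFunLike.congr_fun h1 x
  let θ : LPA L H →ₐ[L] LPA L G :=
    { (bc K L G : LPA K G →+* LPA L G).comp (φ.symm : LPA L H →+* LPA K G) with
      commutes' := fun d => by
        change bc K L G (φ.symm (algebraMap L _ d)) = _
        rw [ht, AlgHom.commutes, IsScalarTower.algebraMap_apply K L (LPA L G), st] }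
  have θ_apply : ∀ y, θ y = bc K L G (φ.symm y) := fun y => rfl
  have h1 : ψ.comp θ = AlgHom.id L _ := by
    refine AlgHom.ext fun y => ?_
    change ψ (bc K L G (φ.symm y)) = y
    rw [claim1, RingEquiv.apply_symm_apply]
  have h2 : θ.comp ψ = AlgHom.id L _ := by
    apply algHom_ext
    intro g
    change θ (ψ (gen L g)) = gen L g
    rw [ψ_gen, θ_apply, RingEquiv.symm_apply_apply, bc_gen]
  have g1 : ∀ n x, x ∈ gr L G n → ψ x ∈ gr L H n := by
    intro n x hx
    have hle : gr L G n ≤ (gr L H n).comap ψ.toLinearMap := by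
      refine Submodule.span_le.mpr ?_
      rintro _ ⟨l, hl, rfl⟩
      change ψ (l.map (gen L)).prod ∈ gr L H n
      rw [map_list_prod, List.map_map, ← hl]
      apply prod_mem_gr
      intro g
      change ψ (gen L g) ∈ _
      rw [ψ_gen]
      exact (hφ _ _).mp (gen_mem_gr K g)
    exact hle hx
  have g2 : ∀ n y, y ∈ gr L H n → θ y ∈ gr L G n := by
    intro n y hy
    rw [θ_apply]
    exact bc_mem_gr K L ((hφ' _ _).mp hy)
  refine ⟨AlgEquiv.ofAlgHom ψ θ h1 h2, fun n x => ⟨fun hx => g1 n x hx, fun hx => ?_⟩⟩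
  have h3 := g2 n _ hx
  have h4 : θ (ψ x) = x := DFunLike.congr_fun h2 x
  change θ (ψ x) ∈ gr L G n at h3
  rw [h4] at h3
  exact h3

theorem not_gradedRingIsoH (K L : Type) [Field K] [Field L] :
    ¬ GradedRingIso K L graphE graphH := by
  intro h
  refine not_gradedIsoH L (h.toGradedIso graphE_noSinks ?_ ?_ (0 : Fin 4) graphH_noSinks ?_ ?_
    (0 : Fin 8))
  · change ∀ v : Fin 4, ∃ e : Fin 5, (![1, 2, 3, 0, 1] : Fin 5 → Fin 4) e = v
    decide
  · obtain ⟨k, hk⟩ := graphE_primitive
    exact fun u v => ⟨k, hk u v⟩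
  · change ∀ v : Fin 8, ∃ e : Fin 10, (![1, 4, 5, 5, 6, 7, 0, 2, 0, 3] : Fin 10 → Fin 8) e = v
    decide
  · obtain ⟨k, hk⟩ := graphH_primitive
    exact fun u v => ⟨k, hk u v⟩

end

end Pool.Agent.KS6_48.LC
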